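import Pool.Agent.Work.MP_adbfe6_an.SG.Defs
import Pool.Agent.Work.MP_adbfe6_an.SF.Per
import Pool.Agent.Work.MP_adbfe6_an.Ext.Holo

/-!
# Surface fibres over Anosov systems: the main argument, given full supports of the slices
-/

set_option autoImplicit false

open MeasureTheory Filter Topology Set
open scoped ENNReal

namespace Pool.Agent.Work.MP_adbfe6_an.SG

open Pool.Agent.Work.MP_adbfe6_an.Ext Pool.Agent.Work.MP_adbfe6_an.An
open Pool.Agent.SKP.SF (BiSat Sset FAs biSat_of_iter ae_swap top Sat Blk Cnt Sml Cou Lnd)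

section

variable {X N : Type} [MetricSpace X] [CompactSpace X] [MeasurableSpace X] [BorelSpace X]
  [MetricSpace N] [CompactSpace N] [MeasurableSpace N] [BorelSpace N]

/-- the skew product and its inverse, their measurability, and what is known about the slices of
bi-saturated sets -/
structure Env (T : X ≃ₜ X) (g : X → N ≃ₜ N) (m : Measure X) (ν : Measure N) : Prop where
  hT : MeasurePreserving T m m
  hg : ∀ x, MeasurePreserving (g x) ν ν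
  cF : Continuous (skew T g : X × N → X × N)
  cFi : Continuous (skew T.symm (ainv T.symm g) : X × N → X × N)
  ful : ∀ E : Set (X × N), BiSat (m.prod ν) (skew T g) (skew T.symm (ainv T.symm g)) E →
    0 < (m.prod ν) E → ∀ᵐ x ∂m, ∀ U : Set N, IsOpen U → U.Nonempty → 0 < ν (Prod.mk x ⁻¹' E ∩ U)
  slc : ∀ E : Set (X × N), BiSat (m.prod ν) (skew T g) (skew T.symm (ainv T.symm g)) E →
    ∀ᵐ x ∂m, ν (Prod.mk x ⁻¹' E) = (m.prod ν) E

variable {T : X ≃ₜ X} {g : X → N ≃ₜ N} {m : Measure X} [IsProbabilityMeasure m] {ν : Measure N}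
  [IsProbabilityMeasure ν] {Ω : Set (X × N)} {Wu Ws : X × N → Set N}

theorem su (p : X × N) : skew T g (skew T.symm (ainv T.symm g) p) = p := by
  refine Prod.ext ?_ ?_
  · exact T.apply_symm_apply p.1
  · show g (T.symm p.1) • (g (T.symm p.1))⁻¹ • p.2 = p.2
    rw [smul_inv_smul]

theorem us (p : X × N) : skew T.symm (ainv T.symm g) (skew T g p) = p := by
  refine Prod.ext ?_ ?_
  · exact T.symm_apply_apply p.1
  · show (g (T.symm (T p.1)))⁻¹ • g p.1 • p.2 = p.2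
    rw [T.symm_apply_apply, inv_smul_smul]

/-- the skew product as a homeomorphism -/
def Fh (e : Env T g m ν) : X × N ≃ₜ X × N where
  toFun := skew T g
  invFun := skew T.symm (ainv T.symm g)
  left_inv := us
  right_inv := su
  continuous_toFun := e.cF
  continuous_invFun := e.cFi

theorem F_mp (e : Env T g m ν) : MeasurePreserving (skew T g : X × N → X × N) (m.prod ν)
    (m.prod ν) := by
  refine e.hT.skew_product (g := fun x y => g x y) ?_ ?_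
  · exact (continuous_snd.comp e.cF).measurable
  · exact Eventually.of_forall fun x => (e.hg x).map_eq

theorem Fi_mp (e : Env T g m ν) : MeasurePreserving (skew T.symm (ainv T.symm g) : X × N → X × N)
    (m.prod ν) (m.prod ν) :=
  Pool.PSTow.homeo_symm_mp (Fh e) (F_mp e)

theorem iter_mem {S : Set (X × N)} (h : ∀ p, skew T g p ∈ S ↔ p ∈ S) (n : ℕ)
    (p : X × N) : (skew T g)^[n] p ∈ S ↔ p ∈ S := by
  induction n with
  | zero => rfl
  | succ n ih => rw [Function.iterate_succ_apply', h, ih]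

theorem cyc_mp (hg : ∀ x, MeasurePreserving (g x) ν ν) (n : ℕ) (x : X) :
    MeasurePreserving (cyc T g n x : N ≃ₜ N) ν ν := by
  induction n with
  | zero => exact MeasurePreserving.id ν
  | succ n ih => exact (hg _).comp ih

theorem eqv_u (hW : PesinFibres T g m ν Ω Wu Ws) (n : ℕ) {p : X × N} (hp : p ∈ Ω) :
    (cyc T g n p.1 : N ≃ₜ N) '' Wu p = Wu ((skew T g)^[n] p) := by
  induction n with
  | zero =>
    show (id : N → N) '' Wu p = Wu p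
    rw [Set.image_id]
  | succ n ih =>
    have h1 : (skew T g)^[n] p ∈ Ω := (iter_mem hW.inv n p).2 hp
    rw [Function.iterate_succ_apply', ← hW.map_u _ h1, ← ih, Set.image_image]
    have h2 : ((skew T g)^[n] p).1 = T^[n] p.1 := by rw [skew_iterate]
    rw [h2]
    rfl

theorem eqv_s (hW : PesinFibres T g m ν Ω Wu Ws) (n : ℕ) {p : X × N} (hp : p ∈ Ω) :
    (cyc T g n p.1 : N ≃ₜ N) '' Ws p = Ws ((skew T g)^[n] p) := by
  induction n with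
  | zero =>
    show (id : N → N) '' Ws p = Ws p
    rw [Set.image_id]
  | succ n ih =>
    have h1 : (skew T g)^[n] p ∈ Ω := (iter_mem hW.inv n p).2 hp
    rw [Function.iterate_succ_apply', ← hW.map_s _ h1, ← ih, Set.image_image]
    have h2 : ((skew T g)^[n] p).1 = T^[n] p.1 := by rw [skew_iterate]
    rw [h2]
    rfl

/-- sets `Wu` of points separated by a backward saturated set are disjoint -/
theorem disj_u (hW : PesinFibres T g m ν Ω Wu Ws) {S : Set (X × N)}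
    (hS : ∀ p q, FAs (skew T.symm (ainv T.symm g)) p q → (p ∈ S ↔ q ∈ S)) {x : X} {y z : N}
    (hy : (x, y) ∈ Ω) (hz : (x, z) ∈ Ω) (hyS : (x, y) ∉ S) (hzS : (x, z) ∈ S) :
    Disjoint (Wu (x, y)) (Wu (x, z)) := by
  rw [Set.disjoint_left]
  intro w hw hw'
  have h1 := hS _ _ (hW.asym_u _ hy w hw)
  have h2 := hS _ _ (hW.asym_u _ hz w hw')
  exact hyS (h1.2 (h2.1 hzS))

theorem disj_s (hW : PesinFibres T g m ν Ω Wu Ws) {S : Set (X × N)}
    (hS : ∀ p q, FAs (skew T g) p q → (p ∈ S ↔ q ∈ S)) {x : X} {y z : N}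
    (hy : (x, y) ∈ Ω) (hz : (x, z) ∈ Ω) (hyS : (x, y) ∉ S) (hzS : (x, z) ∈ S) :
    Disjoint (Ws (x, y)) (Ws (x, z)) := by
  rw [Set.disjoint_left]
  intro w hw hw'
  have h1 := hS _ _ (hW.asym_s _ hy w hw)
  have h2 := hS _ _ (hW.asym_s _ hz w hw')
  exact hyS (h1.2 (h2.1 hzS))

/-- bi-saturated sets are locally constant on the slices of the blocks -/
theorem locc (hW : PesinFibres T g m ν Ω Wu Ws) {Λ : Set (X × N)} {r : ℝ} (hΛΩ : Λ ⊆ Ω)
    (hΛ : ∀ x y y', (x, y) ∈ Λ → (x, y') ∈ Λ → dist y y' < r →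
      (Wu (x, y) ∩ Ws (x, y')).Nonempty) {P : Set (X × N)}
    (hP : BiSat (m.prod ν) (skew T g) (skew T.symm (ainv T.symm g)) P) :
    ∀ᵐ x ∂m, ∀ᵐ q ∂(ν.prod ν), (x, q.1) ∈ Λ → (x, q.2) ∈ Λ → dist q.1 q.2 < r →
      ((x, q.1) ∈ P ↔ (x, q.2) ∈ P) := by
  obtain ⟨_, ⟨Sf, ⟨hSfm, hSf⟩, hSfe⟩, ⟨Sb, ⟨hSbm, hSb⟩, hSbe⟩⟩ := hP
  have a3 := hW.ac Sbᶜ Sf hSbm.compl hSfm
    (by
      intro p hp z hz hzS
      exact hp.1 ((hSb _ _ (hW.asym_u p hp.2 z hz)).2 hzS))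
    (by
      intro p hp z hz
      exact (hSf _ _ (hW.asym_s p hp.2 z hz)).1 hp.1)
    (by
      have h5 : (Sbᶜ ∩ Sf : Set (X × N)) =ᵐ[m.prod ν] (Pᶜ ∩ P : Set (X × N)) :=
        hSbe.compl.inter hSfe
      rw [measure_congr h5, Set.compl_inter_self, measure_empty])
  have a4 := hW.ac Sb Sfᶜ hSbm hSfm.compl
    (by
      intro p hp z hz
      exact (hSb _ _ (hW.asym_u p hp.2 z hz)).1 hp.1)
    (by
      intro p hp z hz hzS
      exact hp.1 ((hSf _ _ (hW.asym_s p hp.2 z hz)).2 hzS))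
    (by
      have h5 : (Sb ∩ Sfᶜ : Set (X × N)) =ᵐ[m.prod ν] (P ∩ Pᶜ : Set (X × N)) :=
        hSbe.inter hSfe.compl
      rw [measure_congr h5, Set.inter_compl_self, measure_empty])
  have a5 : ∀ᵐ x ∂m, ∀ᵐ y ∂ν, ((x, y) ∈ Sf ↔ (x, y) ∈ P) :=
    Measure.ae_ae_of_ae_prod (hSfe.mono fun p hp => Iff.of_eq hp)
  have a6 : ∀ᵐ x ∂m, ∀ᵐ y ∂ν, ((x, y) ∈ Sb ↔ (x, y) ∈ P) :=
    Measure.ae_ae_of_ae_prod (hSbe.mono fun p hp => Iff.of_eq hp)
  filter_upwards [a3, a4, a5, a6] with x b3 b4 b5 b6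
  have c5 : ∀ᵐ q ∂(ν.prod ν), ((x, q.2) ∈ Sf ↔ (x, q.2) ∈ P) :=
    Measure.quasiMeasurePreserving_snd.ae b5
  have c6 : ∀ᵐ q ∂(ν.prod ν), ((x, q.1) ∈ Sb ↔ (x, q.1) ∈ P) :=
    Measure.quasiMeasurePreserving_fst.ae b6
  filter_upwards [b3, b4, c5, c6] with q e3 e4 e5 e6 h1 h2 hr
  obtain ⟨w, hw1, hw2⟩ := hΛ x q.1 q.2 h1 h2 hr
  constructor
  · intro hp
    by_contra hn
    have d1 := e4 ⟨e6.2 hp, hΛΩ h1⟩ ⟨fun h => hn (e5.1 h), hΛΩ h2⟩
    exact Set.disjoint_left.1 d1 hw1 hw2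
  · intro hp
    by_contra hn
    have d1 := e3 ⟨fun h => hn (e6.1 h), hΛΩ h1⟩ ⟨e5.2 hp, hΛΩ h2⟩
    exact Set.disjoint_left.1 d1 hw1 hw2

theorem main_k (h1 : Sat) (h3 : Blk) (e : Env T g m ν) (hW : PesinFibres T g m ν Ω Wu Ws)
    {k : ℕ} (hk : 0 < k) {S : Set (X × N)} (hS : MeasurableSet S) (hSΩ : S ⊆ Ω)
    (hSk : (skew T g)^[k] ⁻¹' S = S) :
    (m.prod ν) S = 0 ∨ (m.prod ν) (Ω \ S) = 0 := by
  by_contra hcon
  push Not at hcon
  obtain ⟨hS0, hS'0⟩ := hcon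
  set μ : Measure (X × N) := m.prod ν with hμ
  have hF : MeasurePreserving (skew T g) μ μ := F_mp e
  have hFi : MeasurePreserving (skew T.symm (ainv T.symm g)) μ μ := Fi_mp e
  have hFc : Continuous (skew T g : X × N → X × N) := e.cF
  have hFic : Continuous (skew T.symm (ainv T.symm g) : X × N → X × N) := e.cFi
  have hfg : ∀ p : X × N, skew T g (skew T.symm (ainv T.symm g) p) = p := su
  have hSi : ∀ (n : ℕ) p, (skew T g)^[k * n] p ∈ S ↔ p ∈ S := by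
    intro n
    induction n with
    | zero => intro p; rfl
    | succ n ih =>
      intro p
      have h5 : (skew T g)^[k * (n + 1)] p
          = (skew T g)^[k] ((skew T g)^[k * n] p) := by
        rw [mul_add, mul_one, add_comm, Function.iterate_add_apply]
      rw [h5, ← ih p]
      show (skew T g)^[k * n] p ∈ (skew T g)^[k] ⁻¹' S ↔ _
      rw [hSk]
  have hBS : BiSat μ (skew T g) (skew T.symm (ainv T.symm g)) S :=
    biSat_of_iter h1 hF hFi hFc hFic hfg hk hS (by rw [hSk])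
  have hful := e.ful
  obtain ⟨-, ⟨Sf, ⟨hSfm, hSf⟩, hSfe⟩, ⟨Sb, ⟨hSbm, hSb⟩, hSbe⟩⟩ := id hBS
  -- the block
  obtain ⟨Λ, hΛΩ, hΛm, hΛε, r, hr, hΛ⟩ := hW.block (μ (Ω \ S)) (pos_iff_ne_zero.2 hS'0)
  set TT : Set (X × N) := (Ω \ S) ∩ Λ with hTT
  have hTm : MeasurableSet TT := (hW.meas.diff hS).inter hΛm
  have hTpos : 0 < μ TT := by
    rw [pos_iff_ne_zero]
    intro h0
    have h5 : μ (Ω \ S) ≤ μ (Ω \ Λ) + μ TT := by
      refine (measure_mono ?_).trans (measure_union_le _ _)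
      intro p hp
      by_cases h : p ∈ Λ
      · exact Or.inr ⟨hp, h⟩
      · exact Or.inl ⟨hp.1, h⟩
    rw [h0, add_zero] at h5
    exact absurd hΛε (not_lt.2 h5)
  obtain ⟨T', hT'T, hT'm, hT'pos, c, hc, hcT⟩ := h3 _ _ m ν TT hTm hTpos r hr
  -- the points which reach `T'`
  set E : Set (X × N) := ⋃ n : ℕ, (skew T g)^[k * n] ⁻¹' T' with hEdef
  have hEm : MeasurableSet E := MeasurableSet.iUnion fun n =>
    (hFc.iterate (k * n)).measurable hT'm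
  have hEpos : 0 < μ E := by
    refine lt_of_lt_of_le hT'pos (measure_mono ?_)
    intro p hp
    exact Set.mem_iUnion.2 ⟨0, hp⟩
  have hEsub : (skew T g)^[k] ⁻¹' E ⊆ E := by
    intro p hp
    obtain ⟨n, hn⟩ := Set.mem_iUnion.1 hp
    exact Set.mem_iUnion.2 ⟨n + 1, by
      show (skew T g)^[k * (n + 1)] p ∈ T'
      rw [mul_add, mul_one, Function.iterate_add_apply]
      exact hn⟩
  have hEi : (skew T g)^[k] ⁻¹' E =ᵐ[μ] E := by
    refine ae_eq_of_subset_of_measure_ge hEsub ?_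
      ((hF.iterate k).measurable hEm).nullMeasurableSet (measure_ne_top _ _)
    rw [(hF.iterate k).measure_preimage hEm.nullMeasurableSet]
  have a1 := hful E (biSat_of_iter h1 hF hFi hFc hFic hfg hk hEm hEi) hEpos
  have a2 := hful S hBS (pos_iff_ne_zero.2 hS0)
  have a3 := hW.ac Sbᶜ Sf hSbm.compl hSfm
    (by
      intro p hp z hz hzS
      exact hp.1 ((hSb _ _ (hW.asym_u p hp.2 z hz)).2 hzS))
    (by
      intro p hp z hz
      exact (hSf _ _ (hW.asym_s p hp.2 z hz)).1 hp.1)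
    (by
      have h5 : (Sbᶜ ∩ Sf : Set (X × N)) =ᵐ[μ] (Sᶜ ∩ S : Set (X × N)) :=
        hSbe.compl.inter hSfe
      rw [measure_congr h5, Set.compl_inter_self, measure_empty])
  have a4 := hW.ac Sb Sfᶜ hSbm hSfm.compl
    (by
      intro p hp z hz
      exact (hSb _ _ (hW.asym_u p hp.2 z hz)).1 hp.1)
    (by
      intro p hp z hz hzS
      exact hp.1 ((hSf _ _ (hW.asym_s p hp.2 z hz)).2 hzS))
    (by
      have h5 : (Sb ∩ Sfᶜ : Set (X × N)) =ᵐ[μ] (S ∩ Sᶜ : Set (X × N)) :=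
        hSbe.inter hSfe.compl
      rw [measure_congr h5, Set.inter_compl_self, measure_empty])
  have a5 : ∀ᵐ x ∂m, ∀ᵐ y ∂ν, ((x, y) ∈ Sf ↔ (x, y) ∈ S) :=
    Measure.ae_ae_of_ae_prod (hSfe.mono fun p hp => Iff.of_eq hp)
  have a6 : ∀ᵐ x ∂m, ∀ᵐ y ∂ν, ((x, y) ∈ Sb ↔ (x, y) ∈ S) :=
    Measure.ae_ae_of_ae_prod (hSbe.mono fun p hp => Iff.of_eq hp)
  have a7 := hW.rect S hSΩ hS
  obtain ⟨x, b1, b2, b3, b4, b5, b6, b7⟩ :=
    (a1.and (a2.and (a3.and (a4.and (a5.and (a6.and a7)))))).exists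
  have : Nonempty N := nonempty_of_isProbabilityMeasure ν
  have c2 : 0 < ν (Prod.mk x ⁻¹' S) := by
    have := b2 Set.univ isOpen_univ Set.univ_nonempty
    rwa [Set.inter_univ] at this
  -- the generic quadruple
  have c3 : ∀ᵐ y ∂(Measure.pi (fun _ : Fin 4 => ν)), ∀ i : Fin 4,
      ((x, y i) ∈ Sf ↔ (x, y i) ∈ S) ∧ ((x, y i) ∈ Sb ↔ (x, y i) ∈ S) ∧
      (∀ᵐ z ∂ν, (x, z) ∈ Sbᶜ ∩ Ω → (x, y i) ∈ Sf ∩ Ω → Disjoint (Wu (x, z)) (Ws (x, y i))) ∧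
      (∀ᵐ z ∂ν, (x, y i) ∈ Sb ∩ Ω → (x, z) ∈ Sfᶜ ∩ Ω →
        Disjoint (Wu (x, y i)) (Ws (x, z))) := by
    rw [ae_all_iff]
    intro i
    have e : ∀ᵐ y ∂ν, ((x, y) ∈ Sf ↔ (x, y) ∈ S) ∧ ((x, y) ∈ Sb ↔ (x, y) ∈ S) ∧
      (∀ᵐ z ∂ν, (x, z) ∈ Sbᶜ ∩ Ω → (x, y) ∈ Sf ∩ Ω → Disjoint (Wu (x, z)) (Ws (x, y))) ∧
      (∀ᵐ z ∂ν, (x, y) ∈ Sb ∩ Ω → (x, z) ∈ Sfᶜ ∩ Ω → Disjoint (Wu (x, y)) (Ws (x, z))) :=
      b5.and (b6.and ((ae_swap b3).and (Measure.ae_ae_of_ae_prod b4)))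
    exact (Measure.quasiMeasurePreserving_eval (fun _ : Fin 4 => ν) i).ae e
  obtain ⟨y, ⟨hyS, R, hRc, hRi, hRν, hRf⟩, hy⟩ := ((b7 c2 c hc).and_eventually c3).exists
  have hyΩ : ∀ i, (x, y i) ∈ Ω := fun i => hSΩ (hyS i)
  have hySf : ∀ i, (x, y i) ∈ Sf := fun i => (hy i).1.2 (hyS i)
  have hySb : ∀ i, (x, y i) ∈ Sb := fun i => (hy i).2.1.2 (hyS i)
  -- the generic point in the rectangle
  have d1 : ∃ᶠ z in ae ν, z ∈ Prod.mk x ⁻¹' E ∩ interior R :=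
    frequently_ae_mem_iff.2 (b1 _ isOpen_interior hRi).ne'
  have d2 : ∀ᵐ z ∂ν, ∀ i, (x, z) ∈ Sbᶜ ∩ Ω → (x, y i) ∈ Sf ∩ Ω →
      Disjoint (Wu (x, z)) (Ws (x, y i)) := ae_all_iff.2 fun i => (hy i).2.2.1
  obtain ⟨p, ⟨hpE, hpR⟩, hpd, hpSb⟩ := (d1.and_eventually (d2.and b6)).exists
  obtain ⟨n', hn⟩ := Set.mem_iUnion.1 hpE
  set n := k * n' with hndef
  have hSin : ∀ p, (skew T g)^[n] p ∈ S ↔ p ∈ S := hSi n'
  have hnT' : (skew T g)^[n] (x, p) ∈ T' := hn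
  have hnT : (skew T g)^[n] (x, p) ∈ TT := hT'T hnT'
  have hpΩ : (x, p) ∈ Ω := (iter_mem hW.inv n _).1 hnT.1.1
  have hpS : (x, p) ∉ S := fun h => hnT.1.2 ((hSin _).2 h)
  have hpSb' : (x, p) ∉ Sb := fun h => hpS (hpSb.1 h)
  -- the points which `Wu p` reaches
  set G : N ≃ₜ N := cyc T g n x with hG
  set xn := T^[n] x with hxn
  have hit : ∀ z, (skew T g)^[n] (x, z) = (xn, G z) := fun z => skew_iterate T g n (x, z)
  set V : Set N := {q | (xn, q) ∈ TT ∧ dist q (G p) < r} with hV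
  have hVm : MeasurableSet V :=
    (measurable_prodMk_left hTm).inter
      (measurableSet_lt (measurable_id.dist measurable_const) measurable_const)
  have hVc : c ≤ ν V := hcT xn (G p) (by rw [← hit]; exact hnT')
  have hGV : ν (G ⁻¹' V) = ν V := (cyc_mp e.hg n x).measure_preimage hVm.nullMeasurableSet
  have key : ∀ᵐ q ∂ν, q ∈ G ⁻¹' V → q ∈ R := by
    have d3 : ∀ᵐ z ∂ν, ∀ i, (x, y i) ∈ Sb ∩ Ω → (x, z) ∈ Sfᶜ ∩ Ω →
      Disjoint (Wu (x, y i)) (Ws (x, z)) := ae_all_iff.2 fun i => (hy i).2.2.2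
    filter_upwards [d3, b5] with q hqd hqSf hqV
    have hqT : (xn, G q) ∈ TT := hqV.1
    have hqΩ : (x, q) ∈ Ω := (iter_mem hW.inv n _).1 (by rw [hit]; exact hqT.1.1)
    have hqS : (x, q) ∉ S := fun h => hqT.1.2 (by
      have := (hSin _).2 h
      rwa [hit] at this)
    have hqSf' : (x, q) ∉ Sf := fun h => hqS (hqSf.1 h)
    have hne : (Wu (x, p) ∩ Ws (x, q)).Nonempty := by
      obtain ⟨w, hw1, hw2⟩ := hΛ xn (G p) (G q) (by rw [← hit]; exact hnT.2) hqT.2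
        (by rw [dist_comm]; exact hqV.2)
      rw [← hit, ← eqv_u hW n hpΩ] at hw1
      rw [← hit, ← eqv_s hW n hqΩ] at hw2
      obtain ⟨w1, hw1', hw1e⟩ := hw1
      obtain ⟨w2, hw2', hw2e⟩ := hw2
      have : w1 = w2 := G.injective (hw1e.trans hw2e.symm)
      exact ⟨w1, hw1', this ▸ hw2'⟩
    obtain ⟨w, hw1, hw2⟩ := hne
    have hK : IsPreconnected (Wu (x, p) ∪ Ws (x, q)) :=
      (hW.conn_u _ hpΩ).union w hw1 hw2 (hW.conn_s _ hqΩ)
    have hKf : Disjoint (Wu (x, p) ∪ Ws (x, q)) (frontier R) := by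
      refine Disjoint.mono_right hRf ?_
      rw [Set.disjoint_union_left]
      refine ⟨?_, ?_⟩
      · rw [Set.disjoint_union_right, Set.disjoint_union_right, Set.disjoint_union_right]
        exact ⟨⟨⟨disj_u hW hSb hpΩ (hyΩ 0) hpSb' (hySb 0),
          disj_u hW hSb hpΩ (hyΩ 1) hpSb' (hySb 1)⟩,
          hpd 2 ⟨hpSb', hpΩ⟩ ⟨hySf 2, hyΩ 2⟩⟩, hpd 3 ⟨hpSb', hpΩ⟩ ⟨hySf 3, hyΩ 3⟩⟩
      · rw [Set.disjoint_union_right, Set.disjoint_union_right, Set.disjoint_union_right]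
        exact ⟨⟨⟨(hqd 0 ⟨hySb 0, hyΩ 0⟩ ⟨hqSf', hqΩ⟩).symm,
          (hqd 1 ⟨hySb 1, hyΩ 1⟩ ⟨hqSf', hqΩ⟩).symm⟩,
          disj_s hW hSf hqΩ (hyΩ 2) hqSf' (hySf 2)⟩, disj_s hW hSf hqΩ (hyΩ 3) hqSf' (hySf 3)⟩
    exact top hRc hK hKf (Or.inl (hW.mem_u _ hpΩ)) hpR (Or.inr (hW.mem_s _ hqΩ))
  have hlast : ν (G ⁻¹' V) ≤ ν R := measure_mono_ae key
  rw [hGV] at hlast
  exact absurd hRν (not_lt.2 (hVc.trans hlast))

/-- the general facts which are used -/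
structure HypG : Prop where
  sat : Sat
  blk : Blk
  cnt : Cnt
  sml : Sml
  cou : Cou

theorem ergodic (H : HypG) (e : Env T g m ν) (hW : PesinFibres T g m ν Ω Wu Ws)
    (hΩ : (m.prod ν) Ωᶜ = 0) : Ergodic (skew T g : X × N → X × N) (m.prod ν) := by
  refine ⟨F_mp e, ⟨fun s hs hsF => ?_⟩⟩
  have h1 : (skew T g)^[1] ⁻¹' (s ∩ Ω) = s ∩ Ω := by
    ext p
    show skew T g p ∈ s ∩ Ω ↔ p ∈ s ∩ Ω
    have h2 : skew T g p ∈ s ↔ p ∈ s := by
      rw [← Set.mem_preimage, hsF]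
    exact and_congr h2 (hW.inv p)
  rw [eventuallyConst_set']
  rcases main_k H.sat H.blk e hW one_pos (hs.inter hW.meas)
    Set.inter_subset_right h1 with h3 | h3
  · left
    rw [ae_eq_empty]
    refine measure_mono_null (fun p hp => ?_) (measure_union_null h3 hΩ)
    by_cases h : p ∈ Ω
    · exact Or.inl ⟨hp, h⟩
    · exact Or.inr h
  · right
    rw [ae_eq_univ]
    refine measure_mono_null (fun p hp => ?_) (measure_union_null h3 hΩ)
    by_cases h : p ∈ Ω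
    · exact Or.inl ⟨h, fun h' => hp h'.1⟩
    · exact Or.inr h

/-- small bi-saturated sets are null sets -/
theorem small (H : HypG) (e : Env T g m ν) (hW : PesinFibres T g m ν Ω Wu Ws)
    (hΩ : (m.prod ν) Ωᶜ = 0) : ∃ δ : ℝ≥0∞, 0 < δ ∧ ∀ Q : Set (X × N),
      BiSat (m.prod ν) (skew T g) (skew T.symm (ainv T.symm g)) Q → (m.prod ν) Q ≤ δ →
      (m.prod ν) Q = 0 := by
  set μ : Measure (X × N) := m.prod ν with hμ
  have hF : MeasurePreserving (skew T g) μ μ := F_mp e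
  have hgf : ∀ p : X × N, skew T.symm (ainv T.symm g) (skew T g p) = p := us
  obtain ⟨Λ, hΛΩ, hΛm, hΛε, r, hr, hΛ⟩ := hW.block 2⁻¹ (by simp)
  obtain ⟨K, hK⟩ := H.sml N r hr
  refine ⟨(2 * ((K : ℝ≥0∞) + 1))⁻¹, ?_, ?_⟩
  · rw [ENNReal.inv_pos]
    exact ENNReal.mul_ne_top (by simp) (by simp)
  intro Q hQ hQδ
  by_contra hQ0
  have herg := ergodic H e hW hΩ
  set U : Set (X × N) := ⋃ n : ℕ, (skew T g)^[n] ⁻¹' Q with hU
  have hUm : MeasurableSet U := MeasurableSet.iUnion fun n => (hF.iterate n).measurable hQ.1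
  have hUsub : skew T g ⁻¹' U ⊆ U := by
    intro p hp
    obtain ⟨n, hn⟩ := Set.mem_iUnion.1 hp
    exact Set.mem_iUnion.2 ⟨n + 1, by
      show (skew T g)^[n + 1] p ∈ Q
      rw [Function.iterate_succ_apply]
      exact hn⟩
  have hUc : μ Uᶜ = 0 := by
    have hUi : skew T g ⁻¹' U =ᵐ[μ] U := by
      refine ae_eq_of_subset_of_measure_ge hUsub ?_ (hF.measurable hUm).nullMeasurableSet
        (measure_ne_top _ _)
      rw [hF.measure_preimage hUm.nullMeasurableSet]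
    rcases herg.quasiErgodic.ae_empty_or_univ₀ hUm.nullMeasurableSet hUi with h | h
    · exfalso
      apply hQ0
      refine measure_mono_null (fun p hp => ?_) (ae_eq_empty.1 h)
      exact Set.mem_iUnion.2 ⟨0, hp⟩
    · exact ae_eq_univ.1 h
  have hQn : ∀ n : ℕ, BiSat μ (skew T g) (skew T.symm (ainv T.symm g)) ((skew T g)^[n] ⁻¹' Q) :=
    fun n => hQ.preimage_iter hF hgf n
  have a1 : ∀ᵐ x ∂m, ∀ n : ℕ, ∀ᵐ q ∂(ν.prod ν), (x, q.1) ∈ Λ → (x, q.2) ∈ Λ →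
      dist q.1 q.2 < r → ((x, q.1) ∈ (skew T g)^[n] ⁻¹' Q ↔
        (x, q.2) ∈ (skew T g)^[n] ⁻¹' Q) :=
    ae_all_iff.2 fun n => locc hW hΛΩ hΛ (hQn n)
  have a2 : ∀ᵐ x ∂m, ∀ n : ℕ, ν (Prod.mk x ⁻¹' ((skew T g)^[n] ⁻¹' Q)) = μ Q := by
    refine ae_all_iff.2 fun n => ?_
    have h6 := e.slc _ (hQn n)
    filter_upwards [h6] with x hx
    rw [hx]
    exact (hF.iterate n).measure_preimage hQ.1.nullMeasurableSet
  have a3 : ∀ᵐ x ∂m, ν (Prod.mk x ⁻¹' Uᶜ) = 0 := by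
    have := (Measure.measure_prod_null hUm.compl).1 hUc
    exact this
  have a4 : ∀ᵐ x ∂m, ν (Prod.mk x ⁻¹' Λ) ≤ K * (2 * ((K : ℝ≥0∞) + 1))⁻¹ := by
    filter_upwards [a1, a2, a3] with x hx1 hx2 hx3
    refine hK ν (Prod.mk x ⁻¹' Λ) (fun n => Prod.mk x ⁻¹' ((skew T g)^[n] ⁻¹' Q)) _
      hx1 (fun n => ?_) ?_
    · rw [hx2 n]
      exact hQδ
    · have : (⋃ i, Prod.mk x ⁻¹' ((skew T g)^[i] ⁻¹' Q))ᶜ = Prod.mk x ⁻¹' Uᶜ := by
        rw [hU, Set.preimage_compl, Set.preimage_iUnion]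
      rw [this]
      exact hx3
  have a5 : μ Λ ≤ K * (2 * ((K : ℝ≥0∞) + 1))⁻¹ := by
    rw [hμ, Measure.prod_apply hΛm]
    calc ∫⁻ x, ν (Prod.mk x ⁻¹' Λ) ∂m ≤ ∫⁻ _, K * (2 * ((K : ℝ≥0∞) + 1))⁻¹ ∂m :=
          lintegral_mono_ae a4
      _ = _ := by simp
  have a6 : (K : ℝ≥0∞) * (2 * ((K : ℝ≥0∞) + 1))⁻¹ ≤ 2⁻¹ := by
    rw [ENNReal.mul_inv (by simp) (by simp), mul_comm, mul_assoc]
    calc (2 : ℝ≥0∞)⁻¹ * (((K : ℝ≥0∞) + 1)⁻¹ * K) ≤ 2⁻¹ * 1 := by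
          gcongr
          rw [mul_comm, ← div_eq_mul_inv]
          exact ENNReal.div_le_of_le_mul (by rw [one_mul]; exact le_self_add)
      _ = 2⁻¹ := mul_one _
  have a7 : (1 : ℝ≥0∞) < 1 := by
    calc (1 : ℝ≥0∞) = μ Set.univ := measure_univ.symm
      _ ≤ μ Λ + μ (Ω \ Λ) + μ Ωᶜ := by
          refine (measure_mono ?_).trans ((measure_union_le _ _).trans
            (add_le_add (measure_union_le _ _) le_rfl))
          intro p _
          by_cases h : p ∈ Ω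
          · by_cases h' : p ∈ Λ
            · exact Or.inl (Or.inl h')
            · exact Or.inl (Or.inr ⟨h, h'⟩)
          · exact Or.inr h
      _ = μ Λ + μ (Ω \ Λ) := by rw [hΩ, add_zero]
      _ < 2⁻¹ + 2⁻¹ := ENNReal.add_lt_add_of_le_of_lt (measure_ne_top _ _) (a5.trans a6) hΛε
      _ = 1 := ENNReal.inv_two_add_inv_two
  exact lt_irrefl _ a7

theorem triv (H : HypG) (e : Env T g m ν) (hW : PesinFibres T g m ν Ω Wu Ws)
    (hΩ : (m.prod ν) Ωᶜ = 0) (P : Set (X × N))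
    (hP : BiSat (m.prod ν) (skew T g) (skew T.symm (ainv T.symm g)) P) :
    (m.prod ν) P = 0 ∨ (m.prod ν) Pᶜ = 0 := by
  set μ : Measure (X × N) := m.prod ν with hμ
  have hF : MeasurePreserving (skew T g) μ μ := F_mp e
  have hgf : ∀ p : X × N, skew T.symm (ainv T.symm g) (skew T g p) = p := us
  obtain ⟨δ, hδ, hsmall⟩ := small H e hW hΩ
  obtain ⟨Λ, hΛΩ, hΛm, hΛε, r, hr, hΛ⟩ := hW.block δ hδ
  obtain ⟨K, hK⟩ := H.cnt N r hr
  have hPn : ∀ n : ℕ, BiSat μ (skew T g) (skew T.symm (ainv T.symm g)) ((skew T g)^[n] ⁻¹' P) :=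
    fun n => hP.preimage_iter hF hgf n
  have a1 : ∀ᵐ x ∂m, ∀ n : ℕ, ∀ᵐ q ∂(ν.prod ν), (x, q.1) ∈ Λ → (x, q.2) ∈ Λ →
      dist q.1 q.2 < r → ((x, q.1) ∈ (skew T g)^[n] ⁻¹' P ↔
        (x, q.2) ∈ (skew T g)^[n] ⁻¹' P) :=
    ae_all_iff.2 fun n => locc hW hΛΩ hΛ (hPn n)
  have a2 : ∀ᵐ x ∂m, ∀ i j : ℕ, ν (Prod.mk x ⁻¹' (symmDiff ((skew T g)^[i] ⁻¹' P)
      ((skew T g)^[j] ⁻¹' P))) = μ (symmDiff ((skew T g)^[i] ⁻¹' P)
      ((skew T g)^[j] ⁻¹' P)) := by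
    refine ae_all_iff.2 fun i => ae_all_iff.2 fun j => ?_
    exact e.slc _ ((hPn i).sdiff (hPn j))
  have a3 : ∀ᵐ x ∂m, ν (Prod.mk x ⁻¹' Ωᶜ) = 0 :=
    (Measure.measure_prod_null hW.meas.compl).1 hΩ
  have a4 : ∃ᶠ x in ae m, ν (Prod.mk x ⁻¹' (Ω \ Λ)) < δ := by
    intro h
    have h5 : ∀ᵐ x ∂m, δ ≤ ν (Prod.mk x ⁻¹' (Ω \ Λ)) := h.mono fun x hx => not_lt.1 hx
    have h6 : δ ≤ μ (Ω \ Λ) := by
      rw [hμ, Measure.prod_apply (hW.meas.diff hΛm)]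
      calc δ = ∫⁻ _, δ ∂m := by simp
        _ ≤ _ := lintegral_mono_ae h5
    exact absurd hΛε (not_lt.2 h6)
  obtain ⟨x, hx4, hx1, hx2, hx3⟩ := (a4.and_eventually (a1.and (a2.and a3))).exists
  obtain ⟨i, j, hij, -, h0⟩ := hK ν (Prod.mk x ⁻¹' Λ)
    (fun n => Prod.mk x ⁻¹' ((skew T g)^[n] ⁻¹' P)) hx1
  have b1 : μ (symmDiff ((skew T g)^[i] ⁻¹' P) ((skew T g)^[j] ⁻¹' P)) = 0 := by
    refine hsmall _ ((hPn i).sdiff (hPn j)) ?_
    rw [← hx2 i j]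
    have h5 : ν (Prod.mk x ⁻¹' (symmDiff ((skew T g)^[i] ⁻¹' P)
        ((skew T g)^[j] ⁻¹' P))) ≤
        ν (symmDiff (Prod.mk x ⁻¹' ((skew T g)^[i] ⁻¹' P))
          (Prod.mk x ⁻¹' ((skew T g)^[j] ⁻¹' P)) ∩ Prod.mk x ⁻¹' Λ) +
        ν (Prod.mk x ⁻¹' (Ω \ Λ)) + ν (Prod.mk x ⁻¹' Ωᶜ) := by
      refine (measure_mono ?_).trans ((measure_union_le _ _).trans
        (add_le_add (measure_union_le _ _) le_rfl))
      intro z hz
      by_cases h : (x, z) ∈ Ω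
      · by_cases h' : (x, z) ∈ Λ
        · exact Or.inl (Or.inl ⟨hz, h'⟩)
        · exact Or.inl (Or.inr ⟨h, h'⟩)
      · exact Or.inr h
    rw [h0, hx3, zero_add, add_zero] at h5
    exact h5.trans hx4.le
  obtain ⟨k, rfl⟩ := Nat.exists_eq_add_of_lt hij
  have b2 : (skew T g)^[k + 1] ⁻¹' P =ᵐ[μ] P := by
    have h5 : (skew T g)^[i] ⁻¹' (symmDiff P ((skew T g)^[k + 1] ⁻¹' P)) =
        symmDiff ((skew T g)^[i] ⁻¹' P) ((skew T g)^[i + k + 1] ⁻¹' P) := by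
      have h6 : (skew T g : X × N → X × N)^[i + k + 1] = (skew T g)^[k + 1] ∘ (skew T g)^[i] := by
        rw [← Function.iterate_add]
        congr 1
        omega
      rw [h6, Set.preimage_comp]
      rfl
    rw [← h5, (hF.iterate i).measure_preimage
      (hP.sdiff (hPn (k + 1))).1.nullMeasurableSet] at b1
    exact (measure_symmDiff_eq_zero_iff.1 b1).symm
  obtain ⟨t, htm, hte, hti⟩ := (hF.iterate (k + 1)).quasiMeasurePreserving.exists_preimage_eq_of_preimage_ae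
    hP.1.nullMeasurableSet b2
  have b3 : (skew T g)^[k + 1] ⁻¹' (t ∩ Ω) = t ∩ Ω := by
    rw [Set.preimage_inter, hti]
    congr 1
    ext p
    exact iter_mem hW.inv (k + 1) p
  rcases main_k H.sat H.blk e hW (Nat.succ_pos k)
    (htm.inter hW.meas) Set.inter_subset_right b3 with h3 | h3
  · left
    rw [← measure_congr hte]
    refine measure_mono_null (fun p hp => ?_) (measure_union_null h3 hΩ)
    by_cases h : p ∈ Ω
    · exact Or.inl ⟨hp, h⟩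
    · exact Or.inr h
  · right
    rw [← measure_congr hte.compl]
    refine measure_mono_null (fun p hp => ?_) (measure_union_null h3 hΩ)
    by_cases h : p ∈ Ω
    · exact Or.inl ⟨h, fun h' => hp h'.1⟩
    · exact Or.inr h

/-- **Main theorem.** -/
theorem main_all (H : HypG) (e : Env T g m ν) (hW : PesinFibres T g m ν Ω Wu Ws) :
    (∀ k > 0, ∀ S ⊆ Ω, MeasurableSet S → (skew T g)^[k] ⁻¹' S = S →
      (m.prod ν) S = 0 ∨ (m.prod ν) (Ω \ S) = 0) ∧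
    ((m.prod ν) Ωᶜ = 0 →
      Ergodic (skew T g : X × N → X × N) (m.prod ν) ∧ Mixing (skew T g : X × N → X × N) (m.prod ν)) := by
  refine ⟨fun k hk S hS hSm hSk => main_k H.sat H.blk e hW hk hSm hS
    hSk, fun hΩ => ⟨ergodic H e hW hΩ, ?_⟩⟩
  exact H.cou _ (m.prod ν) (Fh e) (F_mp e) fun P hP => triv H e hW hΩ P hP

end

end Pool.Agent.Work.MP_adbfe6_an.SG
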