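import Pool.Agent.Work.MP_adbfe6_an.SG.Stmts
import Pool.Agent.Work.MP_adbfe6_an.SG.Abs
import Pool.Agent.Work.MP_adbfe6_an.SF.I_Lnd

/-!
# Surface fibres over Anosov systems: full supports of the slices
-/

set_option autoImplicit false

open MeasureTheory Filter Topology Set
open scoped ENNReal

namespace Pool.Agent.Work.MP_adbfe6_an.SG

open Pool.Agent.Work.MP_adbfe6_an.Ext Pool.Agent.Work.MP_adbfe6_an.An
open Pool.Agent.SKP.SF (BiSat Sset FAs Lnd)

section side

variable {X P Q N : Type} [MetricSpace X] [CompactSpace X] [MeasurableSpace X]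
  [BorelSpace X] [TopologicalSpace P] [MeasurableSpace P] [TopologicalSpace Q]
  [MeasurableSpace Q] [MetricSpace N] [CompactSpace N] [MeasurableSpace N] [BorelSpace N]
  {ν : Measure N} [IsProbabilityMeasure ν]

theorem exists_sideD2 (hC : HCt2) (hO : LOf2) (hL : LTo2) {m : Measure X} {p : Measure P}
    {q : Measure Q} {b : ℕ → P × Q → X} {T : X ≃ₜ X} {a : X → HG ν} {c : X → ℝ}
    (hT : MeasurePreserving T m m) (hb : Boxes m p q b) (hp : Plaques T c b) (ha : Continuous a)
    (hD : Dominated N T a c) (hI : InvLip N a) : ∃ β h, SideD N T a c m p q β h := by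
  obtain ⟨β, hβ⟩ := pr_Fam X P Q m p q b T c hT hb hp
  have hex : ∀ l, ∃ h : P × P × Q → HG ν, Continuous h ∧
      ∀ w : P × P × Q, Hl T a (β l (w.1, w.2.2)) (β l (w.2.1, w.2.2)) (h w) := by
    intro l
    obtain ⟨ρ, hρ, hr⟩ := hβ.rate l
    exact hC X N (P × P × Q) ν T a c T.continuous ha hp.pos hD hI
      (fun w => β l (w.1, w.2.2)) (fun w => β l (w.2.1, w.2.2)) ρ (fun w => ρ (w.2.1, w.1, w.2.2))
      ((hβ.cont l).comp (continuous_fst.prodMk (continuous_snd.comp continuous_snd)))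
      ((hβ.cont l).comp ((continuous_fst.comp continuous_snd).prodMk
        (continuous_snd.comp continuous_snd))) hρ
      (hρ.comp ((continuous_fst.comp continuous_snd).prodMk (continuous_fst.prodMk
        (continuous_snd.comp continuous_snd))))
      (fun w => hr w.1 w.2.1 w.2.2) (fun w => hr w.2.1 w.1 w.2.2)
  choose h hc hh using hex
  refine ⟨β, h, hβ, hc, fun l s s' u => hh l (s, s', u), fun l s s' u y => ?_, fun z z' hz => ?_⟩
  · obtain ⟨ρ, -, hr⟩ := hβ.rate l
    exact hO X N ν T a c hp.cont hp.pos hp.lt hD hI _ _ _ _ _ (hr s s' u) (hr s' s u)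
      (hh l (s, s', u)) y
  · obtain ⟨l, s, s', u, e1, e2⟩ := hβ.all z.1 z'.1 hz.1
    obtain ⟨ρ, -, hr⟩ := hβ.rate l
    have h1 := hr s s' u
    have h2 := hr s' s u
    rw [e1, e2] at h1
    rw [e1, e2] at h2
    obtain ⟨g, hg1, hg2⟩ := hL X N ν T a c hp.pos hD hI z z' _ _ h1 h2 hz
    exact ⟨g, ⟨_, h1⟩, hg1, hg2⟩

end side

/-- the items -/
structure Its : Prop where
  grp : Grp
  coc : Coc
  hct : HCt2
  lof : LOf2
  lto : LTo2
  aeb : Aeb
  opn : Opn
  ofs : Ofs

theorem env_of (I : Its) {X P Q N : Type} [MetricSpace X] [CompactSpace X] [MeasurableSpace X]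
    [BorelSpace X] [TopologicalSpace P] [SecondCountableTopology P] [MeasurableSpace P]
    [BorelSpace P] [TopologicalSpace Q] [SecondCountableTopology Q] [MeasurableSpace Q]
    [BorelSpace Q] [MetricSpace N] [CompactSpace N] [MeasurableSpace N] [BorelSpace N]
    {m : Measure X} [IsProbabilityMeasure m] {p : Measure P} [SigmaFinite p]
    [p.IsOpenPosMeasure] {q : Measure Q} [SigmaFinite q] [q.IsOpenPosMeasure] {ν : Measure N}
    [IsProbabilityMeasure ν] [ν.IsOpenPosMeasure] {b : ℕ → P × Q → X} {T : X ≃ₜ X}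
    {cs cu : X → ℝ} {g : X → N ≃ₜ N} (hB : HypBase m p q b T cs cu)
    (hg : ∀ x, MeasurePreserving (g x) ν ν) (hPHg : PHyp N T g cs cu)
    (hEg : EssAcc T g cs cu (m.prod ν)) : Env T g m ν := by
  obtain ⟨iG, iS⟩ := I.grp N ν
  let a : X → HG ν := fun x => ⟨g x, hg x⟩
  have e1 : (skew T a : X × N → X × N) = skew T g := rfl
  have e2 : (skew T.symm (ainv T.symm a) : X × N → X × N) = skew T.symm (ainv T.symm g) := rfl
  have hPH : PHyp N T a cs cu := ⟨hPHg.lip, hPHg.lip', hPHg.s, hPHg.u⟩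
  have hE : EssAcc T a cs cu (m.prod ν) := hEg
  have hm : ∀ h : HG ν, MeasurePreserving (fun y : N => h • y) ν ν := fun h => h.2
  have t2 : T2Space (HG ν) := by
    refine T2Space.of_injective_continuous (f := fun h : HG ν => ((h.toC, h⁻¹.toC) :
      C(N, N) × C(N, N))) ?_ continuous_induced_dom
    intro h h' hh
    have h1 : h.toC = h'.toC := congrArg Prod.fst hh
    refine Subtype.ext (Homeomorph.ext fun y => ?_)
    exact congrArg (fun F : C(N, N) => F y) h1
  obtain ⟨K, hK⟩ := hPH.lip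
  obtain ⟨K', hK'⟩ := hPH.lip'
  have hac : Continuous a := I.coc X N ν T a K K' hK hK'
  have hbc : Continuous (ainv T.symm a) := (hac.comp T.symm.continuous).inv
  have hTm' : MeasurePreserving T.symm m m := hB.mp.symm T.toMeasurableEquiv
  obtain ⟨βs, hs, hS⟩ := exists_sideD2 I.hct I.lof I.lto hB.mp hB.boxes hB.s hac hPH.s
    (invLip_s (T := T.toEquiv) hK hK')
  obtain ⟨βu, hu, hU⟩ := exists_sideD2 I.hct I.lof I.lto hTm' hB.boxes.swap hB.u hbc hPH.u
    (invLip_u (T := T.toEquiv) hK hK')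
  have hneX : Nonempty X := nonempty_of_isProbabilityMeasure m
  obtain ⟨x00⟩ := hneX
  obtain ⟨i00, z00, -⟩ := hB.boxes.cover x00
  have neP : Nonempty P := ⟨z00.1⟩
  have neQ : Nonempty Q := ⟨z00.2⟩
  have nzp : NeZero p := inferInstance
  have nzq : NeZero q := inferInstance
  have hmo : m.IsOpenPosMeasure := I.opn X P Q m p q b hB.boxes
  -- the analysis of a bi-saturated set
  have key : ∀ S : Set (X × N),
      BiSat (m.prod ν) (skew T g) (skew T.symm (ainv T.symm g)) S →
      (∀ᵐ x ∂m, ν (Prod.mk x ⁻¹' S) = (m.prod ν) S) ∧ (0 < (m.prod ν) S →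
        ∀ᵐ x ∂m, ∀ U : Set N, IsOpen U → U.Nonempty → 0 < ν (Prod.mk x ⁻¹' S ∩ U)) := by
    rintro S ⟨hSm, ⟨Sf, ⟨hSfm, hSf⟩, hSfe⟩, ⟨Sb, ⟨hSbm, hSb⟩, hSbe⟩⟩
    obtain ⟨X0, hX0m, hX0n, hX0r⟩ := pr_X0 X (HG ν) N m ν hm S
      {z | (z ∈ Sf ↔ z ∈ S) ∧ (z ∈ Sb ↔ z ∈ S)}
      (fun z z' => Asym (skew T a) z z' ∨ Asym (skew T.symm (ainv T.symm a)) z z')
      (by
        filter_upwards [hSfe, hSbe] with z h1 h2
        exact ⟨Iff.of_eq h1, Iff.of_eq h2⟩)
      (by
        rintro z ⟨h1, h2⟩ z' ⟨h1', h2'⟩ (h | h)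
        · exact h1.symm.trans ((hSf z z' h).trans h1')
        · exact h2.symm.trans ((hSb z z' h).trans h2'))
    -- relations along the plaques
    have rs : ∀ l s s' u, βs l (s, u) ∈ X0 → βs l (s', u) ∈ X0 →
        Rel ν S (βs l (s, u)) (βs l (s', u)) (hs l (s, s', u)) := fun l s s' u h1 h2 =>
      hX0r _ h1 _ h2 _ fun y => Or.inl (hS.asym l s s' u y)
    have ru : ∀ l s s' u, βu l (s, u) ∈ X0 → βu l (s', u) ∈ X0 →
        Rel ν S (βu l (s, u)) (βu l (s', u)) (hu l (s, s', u)) := fun l s s' u h1 h2 =>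
      hX0r _ h1 _ h2 _ fun y => Or.inr (hU.asym l s s' u y)
    have hX0b : ∀ i, ∀ᵐ z ∂(p.prod q), b i z ∈ X0 := by
      intro i
      rw [ae_iff]
      refine (hB.boxes.null i X0ᶜ hX0m.compl).mpr ?_
      exact measure_mono_null inter_subset_left hX0n
    -- holonomies in the boxes
    have hexs : ∀ i, ∃ h : P × P × Q → HG ν, Continuous h ∧ ∀ s s' u, b i (s, u) ∈ X0 →
        b i (s', u) ∈ X0 → Rel ν S (b i (s, u)) (b i (s', u)) (h (s, s', u)) := by
      intro i
      obtain ⟨ρ, hρ, hr⟩ := hB.s.rate i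
      have cb := (hB.boxes.emb i).continuous
      obtain ⟨h, hc, hh⟩ := I.hct X N (P × P × Q) ν T a cs T.continuous hac hB.s.pos hPH.s
        (invLip_s (T := T.toEquiv) hK hK')
        (fun w => b i (w.1, w.2.2)) (fun w => b i (w.2.1, w.2.2)) ρ
        (fun w => ρ (w.2.1, w.1, w.2.2))
        (cb.comp (continuous_fst.prodMk (continuous_snd.comp continuous_snd)))
        (cb.comp ((continuous_fst.comp continuous_snd).prodMk
          (continuous_snd.comp continuous_snd))) hρ
        (hρ.comp ((continuous_fst.comp continuous_snd).prodMk (continuous_fst.prodMk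
          (continuous_snd.comp continuous_snd))))
        (fun w n => hr w.1 w.2.1 w.2.2 n) (fun w n => hr w.2.1 w.1 w.2.2 n)
      refine ⟨h, hc, fun s s' u h1 h2 => hX0r _ h1 _ h2 _ fun y => Or.inl ?_⟩
      exact I.lof X N ν T a cs hB.s.cont hB.s.pos hB.s.lt hPH.s
        (invLip_s (T := T.toEquiv) hK hK') _ _ _ _ _ (fun n => hr s s' u n)
        (fun n => hr s' s u n) (hh (s, s', u)) y
    have hexu : ∀ i, ∃ h : Q × Q × P → HG ν, Continuous h ∧ ∀ u u' s, b i (s, u) ∈ X0 →
        b i (s, u') ∈ X0 → Rel ν S (b i (s, u)) (b i (s, u')) (h (u, u', s)) := by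
      intro i
      obtain ⟨ρ, hρ, hr⟩ := hB.u.rate i
      have cb : Continuous (fun z : Q × P => b i z.swap) := (hB.boxes.swap.emb i).continuous
      obtain ⟨h, hc, hh⟩ := I.hct X N (Q × Q × P) ν T.symm (ainv T.symm a) cu
        T.symm.continuous hbc hB.u.pos hPH.u (invLip_u (T := T.toEquiv) hK hK')
        (fun w => b i (w.2.2, w.1)) (fun w => b i (w.2.2, w.2.1)) ρ
        (fun w => ρ (w.2.1, w.1, w.2.2))
        (cb.comp (continuous_fst.prodMk (continuous_snd.comp continuous_snd)))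
        (cb.comp ((continuous_fst.comp continuous_snd).prodMk
          (continuous_snd.comp continuous_snd))) hρ
        (hρ.comp ((continuous_fst.comp continuous_snd).prodMk (continuous_fst.prodMk
          (continuous_snd.comp continuous_snd))))
        (fun w n => hr w.1 w.2.1 w.2.2 n) (fun w n => hr w.2.1 w.1 w.2.2 n)
      refine ⟨h, hc, fun u u' s h1 h2 => hX0r _ h1 _ h2 _ fun y => Or.inr ?_⟩
      exact I.lof X N ν T.symm (ainv T.symm a) cu hB.u.cont hB.u.pos hB.u.lt hPH.u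
        (invLip_u (T := T.toEquiv) hK hK') _ _ _ _ _ (fun n => hr u u' s n)
        (fun n => hr u' u s n) (hh (u, u', s)) y
    choose h1 h1c h1r using hexs
    choose h2 h2c h2r using hexu
    choose xi κ hκc hκr using fun i => pr_Cht X (HG ν) N P Q ν hm p q S (b i) X0 (hX0b i) (h1 i)
      (h2 i) (h1c i) (h2c i) (h1r i) (h2r i)
    -- links
    let Lk : X → X → HG ν → Prop := fun x x' g => ((∃ C, Rt T cs x x' C) ∧ Hl T a x x' g) ∨
      ((∃ C, Rt T.symm cu x x' C) ∧ Hl T.symm (ainv T.symm a) x x' g)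
    have hLk1 : ∀ x, Lk x x 1 := fun x => Or.inl ⟨⟨0, Rt.refl x⟩, Hl.refl x⟩
    have hLk2 : ∀ i j z z' g, Lk (b i z) (b j z') g →
        Rel ν S (xi i) (xi j) ((κ j z')⁻¹ * g * κ i z) := by
      intro i j z z' g hg
      rcases hg with ⟨⟨C, hC⟩, hg⟩ | ⟨⟨C, hC⟩, hg⟩
      · obtain ⟨l, s, s', u, e1, e2⟩ := hS.fam.all _ _
          (hC.asym hB.s.cont hB.s.pos hB.s.lt)
        have e3 := hS.hl l s s' u
        rw [e1, e2] at e3
        rw [hg.unique e3]
        exact pr_Cons X (HG ν) N (P × Q) P Q ν hm m (p.prod q) p q S hSm X0 hX0m hX0n (b i) (b j)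
          (hB.boxes.emb i) (hB.boxes.emb j) (hB.boxes.null i) (hB.boxes.null j) (xi i) (xi j)
          (κ i) (κ j) (hκc i) (hκc j) (hκr i) (hκr j) (βs l) (hS.fam.cont l) (hS.fam.null l)
          (hs l) (hS.cont l) (rs l) s s' u z z' e1 e2
      · obtain ⟨l, s, s', u, e1, e2⟩ := hU.fam.all _ _
          (hC.asym hB.u.cont hB.u.pos hB.u.lt)
        have e3 := hU.hl l s s' u
        rw [e1, e2] at e3
        rw [hg.unique e3]
        exact pr_Cons X (HG ν) N (P × Q) Q P ν hm m (p.prod q) q p S hSm X0 hX0m hX0n (b i) (b j)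
          (hB.boxes.emb i) (hB.boxes.emb j) (hB.boxes.null i) (hB.boxes.null j) (xi i) (xi j)
          (κ i) (κ j) (hκc i) (hκc j) (hκr i) (hκr j) (βu l) (hU.fam.cont l) (hU.fam.null l)
          (hu l) (hU.cont l) (ru l) s s' u z z' e1 e2
    have hleaf : ∀ z z' : X × N, (Leaf T a cs z z' ∨ Leaf T.symm (ainv T.symm a) cu z z') →
        ∃ g, Lk z.1 z'.1 g ∧ z'.2 = g • z.2 := by
      rintro z z' (hz | hz)
      · obtain ⟨g, k1, k2, k3⟩ := hS.leaf z z' hz
        exact ⟨g, Or.inl ⟨k1, k2⟩, k3⟩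
      · obtain ⟨g, k1, k2, k3⟩ := hU.leaf z z' hz
        exact ⟨g, Or.inr ⟨k1, k2⟩, k3⟩
    have hconn := pr_Conn X (HG ν) N P Q m ν hm p q b hB.boxes S xi κ Lk hLk1 hLk2
      (fun z z' => Leaf T a cs z z' ∨ Leaf T.symm (ainv T.symm a) cu z z')
      (fun z z' hz => by
        obtain ⟨g, k1, -⟩ := hleaf z z' hz
        exact ⟨g, k1⟩) hE
    have hae := I.aeb X P Q m p q b hB.boxes (fun i z x => Rel ν S (xi i) x (κ i z)) hκr
    -- the measures of the slices
    have hmr : ∀ (x x' : X) (h : HG ν), Rel ν S x x' h → ν {y | (x, y) ∈ S} =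
        ν {y | (x', y) ∈ S} := by
      intro x x' h hr
      have h3 : ν {y : N | (x', h • y) ∈ S} = ν {y : N | (x, y) ∈ S} := measure_congr hr
      rw [← h3]
      exact (hm h).measure_preimage (measurable_prodMk_left hSm).nullMeasurableSet
    have hc : ∀ᵐ x ∂m, ν (Prod.mk x ⁻¹' S) = ν {y | (xi 0, y) ∈ S} := by
      filter_upwards [hae] with x hx
      obtain ⟨i, z, -, hr⟩ := hx
      obtain ⟨h, hh⟩ := hconn 0 i
      rw [hmr _ _ _ hh, hmr _ _ _ hr]
      rfl
    have hμ : (m.prod ν) S = ν {y | (xi 0, y) ∈ S} := by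
      rw [Measure.prod_apply hSm, lintegral_congr_ae hc]
      simp
    refine ⟨by rw [hμ]; exact hc, fun hpos => ?_⟩
    -- the open set
    obtain ⟨O, hO, hOi, hOe⟩ := I.ofs X (HG ν) N P Q m ν hm p q b hB.boxes S hSm xi κ hκc hκr Lk
      hLk1 hLk2
    have hpath : ∀ z z' : X × N, Relation.ReflTransGen
        (fun z z' => Leaf T a cs z z' ∨ Leaf T.symm (ainv T.symm a) cu z z') z z' →
        (z' ∈ O ↔ z ∈ O) := by
      intro z z' h
      induction h with
      | refl => rfl
      | @tail w w' _ h2 ih =>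
        obtain ⟨g, k1, k2⟩ := hleaf w w' h2
        have h3 := hOi w.1 w'.1 g k1 w.2
        rw [← k2] at h3
        exact h3.trans ih
    have hOm : MeasurableSet O := hO.measurableSet
    have hcases : (m.prod ν) O = 0 ∨ (m.prod ν) Oᶜ = 0 := by
      by_contra hcon
      push Not at hcon
      obtain ⟨z, hz, z', hz', hzz⟩ := hE O Oᶜ hOm hOm.compl (pos_iff_ne_zero.mpr hcon.1)
        (pos_iff_ne_zero.mpr hcon.2)
      exact hz' ((hpath z z' hzz).mpr hz)
    rcases hcases with h | h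
    · have hO0 : O = ∅ := by
        by_contra hne
        exact (hO.measure_pos (m.prod ν) (nonempty_iff_ne_empty.2 hne)).ne' h
      filter_upwards [hOe] with x hx U hU hUn
      rw [pos_iff_ne_zero]
      intro h0
      obtain ⟨y, hy⟩ := hUn
      have h3 : y ∈ Off ν {y | (x, y) ∈ S} := ⟨U, hU, hy, h0⟩
      rw [← hx, hO0] at h3
      exact h3
    · exfalso
      have h3 : ∀ᵐ x ∂m, ν (Prod.mk x ⁻¹' S) = 0 := by
        have h4 := (Measure.measure_prod_null hOm.compl).1 h
        filter_upwards [hOe, h4] with x hx h5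
        have h6 := Pool.Agent.SKP.SF.i_Lnd N ν (Prod.mk x ⁻¹' S)
        refine measure_mono_null (fun y hy => ?_) (measure_union_null h6 h5)
        by_cases hyO : (x, y) ∈ O
        · left
          have h7 : y ∈ Off ν {y | (x, y) ∈ S} := by
            rw [← hx]
            exact hyO
          exact ⟨hy, h7⟩
        · exact Or.inr hyO
      have h4 : (m.prod ν) S = 0 := by
        rw [Measure.measure_prod_null hSm]
        exact h3
      exact hpos.ne' h4
  have c1 : Continuous (skew T a : X × N → X × N) := (skewHm (N := N) T a hac hbc).continuous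
  have c2 : Continuous (skew T.symm (ainv T.symm a) : X × N → X × N) :=
    (skewHm (N := N) T a hac hbc).symm.continuous
  exact ⟨hB.mp, hg, c1, c2, fun E hE hp => (key E hE).2 hp, fun E hE => (key E hE).1⟩

end Pool.Agent.Work.MP_adbfe6_an.SG
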