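import Pool.Agent.Work.MP_adbfe6_an.An.Defs

/-!
# Fibrewise Pesin structures of skew products over Anosov systems

Base: a homeomorphism `T` of a compact metric space `X` with absolutely continuous boxes of stable and
unstable plaques (`An.HypBase`). Fibre: a compact metric space `N`; the fibre maps are arbitrary
homeomorphisms `g x : N ≃ₜ N`. The skew product is `skew T g (x, y) = (T x, g x y)`.
-/

set_option autoImplicit false

open MeasureTheory Filter Topology Set
open scoped ENNReal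

namespace Pool.Agent.Work.MP_adbfe6_an.SG

open Pool.Agent.Work.MP_adbfe6_an.Ext Pool.Agent.Work.MP_adbfe6_an.An

/-- homeomorphisms act by application: `g • y = g y` -/
instance homeoAction {N : Type} [TopologicalSpace N] : MulAction (N ≃ₜ N) N where
  smul g y := g y
  one_smul _ := rfl
  mul_smul _ _ _ := rfl

/-- **Fibrewise Pesin structure** of the skew product `f = skew T g`, `f (x, y) = (T x, g x y)`, on a
measurable invariant set `Ω`: for `p ∈ Ω` there are connected subsets `Wu p` and `Ws p` of the fibre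
through `p`, equivariant under `f`, containing the fibre coordinate of `p`, whose points are backward
asymptotic (forward asymptotic) to `p`, such that

* `block`: outside of a subset of `Ω` of small measure, `Wu p` and `Ws q` meet if `p` and `q` lie in
  the same fibre and are close to each other;
* `ac` (absolute continuity): if `P` is saturated by the sets `Wu`, `Q` is saturated by the sets
  `Ws`, and `P ∩ Q` is a null set, then almost no `Wu p`, `p ∈ P`, meets a `Ws q`, `q ∈ Q`;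
* `rect` (rectangles, dimension two of the fibre): in the fibre over `x`, for many quadruples of
  points of `S ⊆ Ω`, two of the sets `Wu` and two of the sets `Ws` contain the boundary of a closed
  set of small measure with nonempty interior.

For a closed surface `N` with an area `ν` and fibre maps which are uniformly of class `C^{1+α}`, the
set `Ω` of the points with nonzero exponents in the fibre direction, and its unstable and stable
curves in the fibres, have these properties by Pesin theory. -/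
structure PesinFibres {X N : Type} [MetricSpace X] [MeasurableSpace X] [MetricSpace N]
    [MeasurableSpace N] (T : X ≃ₜ X) (g : X → N ≃ₜ N) (m : Measure X) (ν : Measure N)
    (Ω : Set (X × N)) (Wu Ws : X × N → Set N) : Prop where
  meas : MeasurableSet Ω
  inv : ∀ p, skew T g p ∈ Ω ↔ p ∈ Ω
  conn_u : ∀ p ∈ Ω, IsPreconnected (Wu p)
  conn_s : ∀ p ∈ Ω, IsPreconnected (Ws p)
  mem_u : ∀ p ∈ Ω, p.2 ∈ Wu p
  mem_s : ∀ p ∈ Ω, p.2 ∈ Ws p
  map_u : ∀ p ∈ Ω, g p.1 '' Wu p = Wu (skew T g p)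
  map_s : ∀ p ∈ Ω, g p.1 '' Ws p = Ws (skew T g p)
  asym_u : ∀ p ∈ Ω, ∀ z ∈ Wu p, Asym (skew T.symm (ainv T.symm g)) p (p.1, z)
  asym_s : ∀ p ∈ Ω, ∀ z ∈ Ws p, Asym (skew T g) p (p.1, z)
  block : ∀ ε : ℝ≥0∞, 0 < ε → ∃ Λ ⊆ Ω, MeasurableSet Λ ∧ (m.prod ν) (Ω \ Λ) < ε ∧
    ∃ r : ℝ, 0 < r ∧ ∀ x y y', (x, y) ∈ Λ → (x, y') ∈ Λ → dist y y' < r →
      (Wu (x, y) ∩ Ws (x, y')).Nonempty
  ac : ∀ P Q : Set (X × N), MeasurableSet P → MeasurableSet Q →
    (∀ p ∈ P ∩ Ω, ∀ z ∈ Wu p, (p.1, z) ∈ P) → (∀ q ∈ Q ∩ Ω, ∀ z ∈ Ws q, (q.1, z) ∈ Q) →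
    (m.prod ν) (P ∩ Q) = 0 →
    ∀ᵐ x ∂m, ∀ᵐ q ∂(ν.prod ν), (x, q.1) ∈ P ∩ Ω → (x, q.2) ∈ Q ∩ Ω →
      Disjoint (Wu (x, q.1)) (Ws (x, q.2))
  rect : ∀ S ⊆ Ω, MeasurableSet S → ∀ᵐ x ∂m, 0 < ν (Prod.mk x ⁻¹' S) → ∀ ρ : ℝ≥0∞, 0 < ρ →
    ∃ᶠ y in ae (Measure.pi (fun _ : Fin 4 => ν)), (∀ i, (x, y i) ∈ S) ∧
      ∃ R : Set N, IsClosed R ∧ (interior R).Nonempty ∧ ν R < ρ ∧
        frontier R ⊆ Wu (x, y 0) ∪ Wu (x, y 1) ∪ Ws (x, y 2) ∪ Ws (x, y 3)

end Pool.Agent.Work.MP_adbfe6_an.SG
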