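import Pool.Agent.Work.MP_adbfe6_an.SG.Stmts

/-!
# Block SG, item Aeb: from the boxes to the base
-/

set_option autoImplicit false

open MeasureTheory Filter Topology Set
open scoped ENNReal

namespace Pool.Agent.Work.MP_adbfe6_an.SG

open Pool.Agent.Work.MP_adbfe6_an.Ext Pool.Agent.Work.MP_adbfe6_an.An

theorem i_Aeb : Aeb := by
  intro X P Q _ _ _ _ _ _ _ _ _ _ _ m p q b hb R hR
  have h1 : ∀ i, ∃ Z : Set (P × Q), MeasurableSet Z ∧ (p.prod q) Z = 0 ∧
      ∀ z, z ∉ Z → R i z (b i z) := by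
    intro i
    refine ⟨toMeasurable (p.prod q) {z | ¬ R i z (b i z)}, measurableSet_toMeasurable _ _, ?_, ?_⟩
    · rw [measure_toMeasurable]
      exact hR i
    · intro z hz
      by_contra h
      exact hz (subset_toMeasurable _ _ h)
  choose Z hZm hZ0 hZR using h1
  have h2 : ∀ i, m (b i '' Z i) = 0 := by
    intro i
    have hm : MeasurableSet (b i '' Z i) :=
      (hb.emb i).measurableEmbedding.measurableSet_image.2 (hZm i)
    have h3 := (hb.null i _ hm).1 (by
      rw [preimage_image_eq _ (hb.emb i).injective]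
      exact hZ0 i)
    rwa [inter_eq_left.2 (image_subset_range _ _)] at h3
  have h4 : m (⋃ i, b i '' Z i) = 0 := measure_iUnion_null h2
  filter_upwards [measure_eq_zero_iff_ae_notMem.1 h4] with x hx
  obtain ⟨i, z, hz⟩ := hb.cover x
  refine ⟨i, z, hz, ?_⟩
  have h5 : z ∉ Z i := fun h => hx (mem_iUnion.2 ⟨i, z, h, hz⟩)
  rw [← hz]
  exact hZR i z h5

end Pool.Agent.Work.MP_adbfe6_an.SG
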