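import Pool.Agent.Work.MP_adbfe6_an.SG.Stmts
import Pool.Agent.Work.MP_adbfe6_an.SK.Meas

set_option autoImplicit false

open MeasureTheory Filter Topology Set
open scoped ENNReal

namespace Pool.Agent.Work.MP_adbfe6_an.SG

theorem i_Cle : Cle := by
  intro N _ _ _ _ ν _
  refine ⟨⟨⟨rfl⟩, ?_⟩, ?_⟩
  · intro h h' hh
    have h1 : h.toC = h'.toC := congrArg Prod.fst hh
    refine Subtype.ext (Homeomorph.ext fun y => ?_)
    exact congrArg (fun F : C(N, N) => F y) h1
  · refine IsSeqClosed.isClosed ?_
    intro s uv hs hlim
    choose h hh using hs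
    obtain ⟨u, v⟩ := uv
    have hu : Tendsto (fun n => (h n).toC) atTop (𝓝 u) := by
      have := (continuous_fst.tendsto (u, v)).comp hlim
      refine this.congr fun n => ?_
      simp only [Function.comp_apply, ← hh n]
    have hv : Tendsto (fun n => (h n)⁻¹.toC) atTop (𝓝 v) := by
      have := (continuous_snd.tendsto (u, v)).comp hlim
      refine this.congr fun n => ?_
      simp only [Function.comp_apply, ← hh n]
    have e1 : ∀ y, u (v y) = y := by
      intro y
      have h1 : Tendsto (fun n => (h n).toC ((h n)⁻¹.toC y)) atTop (𝓝 (u (v y))) := by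
        have h2 : Tendsto (fun n => (h n)⁻¹.toC y) atTop (𝓝 (v y)) :=
          ((continuous_eval_const (F := C(N, N)) y).tendsto v).comp hv
        have h3 : Continuous (fun q : C(N, N) × N => q.1 q.2) := continuous_eval
        exact (h3.tendsto (u, v y)).comp (hu.prodMk_nhds h2)
      have h4 : ∀ n, (h n).toC ((h n)⁻¹.toC y) = y := fun n =>
        Homeomorph.apply_symm_apply (h n).1 y
      simp only [h4] at h1
      exact (tendsto_nhds_unique h1 tendsto_const_nhds)
    have e2 : ∀ y, v (u y) = y := by
      intro y
      have h1 : Tendsto (fun n => (h n)⁻¹.toC ((h n).toC y)) atTop (𝓝 (v (u y))) := by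
        have h2 : Tendsto (fun n => (h n).toC y) atTop (𝓝 (u y)) :=
          ((continuous_eval_const (F := C(N, N)) y).tendsto u).comp hu
        have h3 : Continuous (fun q : C(N, N) × N => q.1 q.2) := continuous_eval
        exact (h3.tendsto (v, u y)).comp (hv.prodMk_nhds h2)
      have h4 : ∀ n, (h n)⁻¹.toC ((h n).toC y) = y := fun n =>
        Homeomorph.symm_apply_apply (h n).1 y
      simp only [h4] at h1
      exact (tendsto_nhds_unique h1 tendsto_const_nhds)
    let H : N ≃ₜ N :=
      { toFun := u
        invFun := v
        left_inv := e2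
        right_inv := e1
        continuous_toFun := u.continuous
        continuous_invFun := v.continuous }
    have hmp : MeasurePreserving H ν ν :=
      Pool.Agent.SKP.measurePreserving_of_tendsto (h := fun n => ((h n).1 : N ≃ₜ N))
        (fun n => (h n).2) u.continuous.measurable
        (fun z => ((continuous_eval_const (F := C(N, N)) z).tendsto u).comp hu)
    refine ⟨⟨H, hmp⟩, ?_⟩
    refine Prod.ext ?_ ?_
    · ext y; rfl
    · ext y; rfl

end Pool.Agent.Work.MP_adbfe6_an.SG
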