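import Pool.Agent.Work.MP_adbfe6_an.SG.Stmts

/-!
# Cocycles of Lipschitz skew products are continuous
-/

set_option autoImplicit false

open MeasureTheory Filter Topology Set
open scoped ENNReal

namespace Pool.Agent.Work.MP_adbfe6_an.SG

open Pool.Agent.Work.MP_adbfe6_an.Ext Pool.Agent.Work.MP_adbfe6_an.An

theorem AuxCoc.lipC {X N : Type} [MetricSpace X] [MetricSpace N] [CompactSpace N]
    [MeasurableSpace N] [BorelSpace N] (ν : Measure N) {T : X → X} {a : X → HG ν} {K : NNReal}
    (h : LipschitzWith K (skew (N := N) T a)) : Continuous (fun x => (a x).toC) := by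
  have h1 : LipschitzWith K (fun x => (a x).toC) := by
    refine LipschitzWith.of_dist_le_mul fun x x' => ?_
    rw [ContinuousMap.dist_le (by positivity)]
    intro y
    exact lip_fibre h x x' y
  exact h1.continuous

theorem i_Coc : Coc := by
  intro X N _ _ _ _ _ ν T a K K' h h'
  refine continuous_induced_rng.2 ?_
  have h1 := AuxCoc.lipC ν h
  have h2 := (AuxCoc.lipC ν h').comp T.continuous
  refine (h1.prodMk h2).congr fun x => ?_
  have h3 : ainv T.symm a (T x) = (a x)⁻¹ := by
    unfold ainv
    rw [Homeomorph.symm_apply_apply]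
  refine Prod.ext rfl ?_
  show (ainv T.symm a (T x)).toC = ((a x)⁻¹).toC
  rw [h3]

end Pool.Agent.Work.MP_adbfe6_an.SG
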