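import Pool.Agent.Work.MP_adbfe6_an.SG.Stmts

/-!
# Surface fibres over Anosov systems: item Grp
-/

set_option autoImplicit false
set_option linter.unusedSectionVars false

open MeasureTheory Filter Topology Set
open scoped ENNReal

namespace Pool.Agent.Work.MP_adbfe6_an.SG

namespace IGrp

variable {N : Type} [MetricSpace N] [CompactSpace N] [MeasurableSpace N] [BorelSpace N]
  {ν : Measure N}

theorem ind : IsInducing (fun h : HG ν => ((h.toC, h⁻¹.toC) : C(N, N) × C(N, N))) := ⟨rfl⟩

theorem cont_toC : Continuous (fun h : HG ν => h.toC) := continuous_fst.comp ind.continuous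

theorem cont_inv_toC : Continuous (fun h : HG ν => h⁻¹.toC) := continuous_snd.comp ind.continuous

theorem toC_mul (h k : HG ν) : (h * k).toC = h.toC.comp k.toC := rfl

theorem smul_eq (h : HG ν) (y : N) : h • y = h.toC y := rfl

theorem cont_iff {W : Type} [TopologicalSpace W] {u : W → HG ν}
    (h1 : Continuous (fun w => (u w).toC)) (h2 : Continuous (fun w => (u w)⁻¹.toC)) :
    Continuous u := ind.continuous_iff.2 (h1.prodMk h2)

theorem topGroup : IsTopologicalGroup (HG ν) where
  continuous_mul := by
    refine cont_iff ?_ ?_
    · simp only [toC_mul]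
      exact ContinuousMap.continuous_comp'.comp
        ((cont_toC.comp continuous_snd).prodMk (cont_toC.comp continuous_fst))
    · simp only [mul_inv_rev, toC_mul]
      exact ContinuousMap.continuous_comp'.comp
        ((cont_inv_toC.comp continuous_fst).prodMk (cont_inv_toC.comp continuous_snd))
  continuous_inv := by
    refine cont_iff cont_inv_toC ?_
    simp only [inv_inv]
    exact cont_toC

theorem contSMul : ContinuousSMul (HG ν) N where
  continuous_smul := by
    simp only [smul_eq]
    exact (cont_toC.comp continuous_fst).eval continuous_snd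

end IGrp

theorem i_Grp : Grp := fun _ _ _ _ _ _ => ⟨IGrp.topGroup, IGrp.contSMul⟩

end Pool.Agent.Work.MP_adbfe6_an.SG
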