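import Pool.Agent.Work.MP_adbfe6_an.SG.Stmts

set_option autoImplicit false

open MeasureTheory Filter Topology Set
open scoped ENNReal

namespace Pool.Agent.Work.MP_adbfe6_an.SG

open Pool.Agent.Work.MP_adbfe6_an.Ext Pool.Agent.Work.MP_adbfe6_an.An

namespace IHCt2

section

variable {N : Type} [MetricSpace N] [CompactSpace N] [MeasurableSpace N] [BorelSpace N]
  {ν : Measure N}

theorem pair_continuous : Continuous (fun h : HG ν => ((h.toC, h⁻¹.toC) : C(N, N) × C(N, N))) :=
  continuous_induced_dom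

theorem toC_continuous : Continuous (HG.toC : HG ν → C(N, N)) :=
  continuous_fst.comp pair_continuous

/-- a locally uniform limit of continuous maps -/
theorem lim_cont {W : Type} [TopologicalSpace W] (φ : ℕ → W → HG ν) (g : W → HG ν) (ρ : W → ℝ)
    (K r : ℝ) (hK : 0 ≤ K) (hr0 : 0 < r) (hr1 : r < 1) (hρ : Continuous ρ) (hρ0 : ∀ w, 0 ≤ ρ w)
    (hφ : ∀ n, Continuous (φ n))
    (hd : ∀ (w : W) (n : ℕ) (y : N), dist (φ n w • y) (g w • y) ≤ K * ρ w * r ^ n) :
    Continuous (fun w => (g w).toC) := by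
  have hdist : ∀ (n : ℕ) (w : W), dist (φ n w).toC (g w).toC ≤ K * ρ w * r ^ n := by
    intro n w
    have h0 := hρ0 w
    rw [ContinuousMap.dist_le (by positivity)]
    intro y
    exact hd w n y
  have hlu : TendstoLocallyUniformly (fun (n : ℕ) (w : W) => (φ n w).toC)
      (fun w : W => (g w).toC) atTop := by
    rw [Metric.tendstoLocallyUniformly_iff]
    intro ε hε w
    refine ⟨{v : W | ρ v < ρ w + 1}, ?_, ?_⟩
    · refine IsOpen.mem_nhds (isOpen_lt hρ continuous_const) ?_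
      show ρ w < ρ w + 1
      linarith
    · have ht : Tendsto (fun n : ℕ => K * (ρ w + 1) * r ^ n) atTop (𝓝 0) := by
        have h1 := tendsto_pow_atTop_nhds_zero_of_lt_one hr0.le hr1
        have h2 := h1.const_mul (K * (ρ w + 1))
        simpa using h2
      filter_upwards [ht.eventually (gt_mem_nhds hε)] with n hn
      intro v hv
      rw [dist_comm]
      refine lt_of_le_of_lt (hdist n v) (lt_of_le_of_lt ?_ hn)
      have hv' : ρ v ≤ ρ w + 1 := le_of_lt hv
      gcongr
  exact hlu.continuous (Frequently.of_forall fun n => toC_continuous.comp (hφ n))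

end

end IHCt2

open IHCt2 in
/-- [HCt2] holonomies are continuous -/
theorem i_HCt2 (h1 : Grp) (h2 : HPt2) : HCt2 := by
  intro X N W _ _ _ _ _ _ ν _ T a c hT ha hc hD hL x x' ρ ρ' hx hx' hρ hρ' hR hR'
  have htg : IsTopologicalGroup (HG ν) := (h1 N ν).1
  obtain ⟨K, r, hK, hr0, hr1, hb⟩ := h2 X N ν T a c hc hD hL
  choose g hg hd hd' using fun w => hb (x w) (x' w) (ρ w) (ρ' w) (hR w) (hR' w)
  refine ⟨g, ?_, hg⟩
  have hcyc : ∀ n, Continuous (cyc T a n) := fun n => cyc_continuous hT ha n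
  have hρ0 : ∀ w, 0 ≤ ρ w := fun w => (hR w).nonneg
  have hρ0' : ∀ w, 0 ≤ ρ' w := fun w => (hR' w).nonneg
  refine continuous_induced_rng.2 (Continuous.prodMk ?_ ?_)
  · exact lim_cont (fun n w => (cyc T a n (x' w))⁻¹ * cyc T a n (x w)) g ρ' K r hK hr0 hr1 hρ'
      hρ0' (fun n => (((hcyc n).comp hx').inv).mul ((hcyc n).comp hx)) hd'
  · exact lim_cont (fun n w => (cyc T a n (x w))⁻¹ * cyc T a n (x' w)) (fun w => (g w)⁻¹) ρ K r
      hK hr0 hr1 hρ hρ0 (fun n => (((hcyc n).comp hx).inv).mul ((hcyc n).comp hx')) hd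

end Pool.Agent.Work.MP_adbfe6_an.SG
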