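import Pool.Agent.Work.MP_adbfe6_an.SG.Stmts

set_option autoImplicit false

open MeasureTheory Filter Topology Set
open scoped ENNReal

namespace Pool.Agent.Work.MP_adbfe6_an.SG

open Pool.Agent.Work.MP_adbfe6_an.Ext Pool.Agent.Work.MP_adbfe6_an.An

/-- holonomies exist in the group of measure preserving homeomorphisms -/
theorem i_HPt2 (h1 : Grp) (h2 : Cle) : HPt2 := by
  intro X N _ _ _ _ _ ν _ T a c h0 hd hL
  have hG : IsTopologicalGroup (HG ν) := (h1 N ν).1
  have hE := h2 N ν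
  obtain ⟨K, r, hK, hr0, hr1, hs⟩ := AuxHPt.step (N := N) h0 hd hL
  have hr : 0 < 1 - r := by linarith
  refine ⟨K / (1 - r), r, by positivity, hr0, hr1, ?_⟩
  intro x x' C C' hR hR'
  have hC : 0 ≤ C := hR.nonneg
  have hC' : 0 ≤ C' := hR'.nonneg
  set u : ℕ → HG ν := fun n => (cyc T a n x)⁻¹ * cyc T a n x' with hu
  have hui : ∀ n, (u n)⁻¹ = (cyc T a n x')⁻¹ * cyc T a n x := by
    intro n
    rw [hu]
    simp only [mul_inv_rev, inv_inv]
  have hs1 : ∀ n : ℕ, dist (u n).toC (u (n + 1)).toC ≤ K * C * r ^ n := by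
    intro n
    rw [ContinuousMap.dist_le (by positivity)]
    intro y
    exact hs x x' C hR n y
  have hs2 : ∀ n : ℕ, dist (u n)⁻¹.toC (u (n + 1))⁻¹.toC ≤ K * C' * r ^ n := by
    intro n
    rw [ContinuousMap.dist_le (by positivity), hui, hui]
    intro y
    exact hs x' x C' hR' n y
  have hc1 : CauchySeq (fun n => (u n).toC) := cauchySeq_of_le_geometric r (K * C) hr1 hs1
  have hc2 : CauchySeq (fun n => (u n)⁻¹.toC) := cauchySeq_of_le_geometric r (K * C') hr1 hs2
  obtain ⟨F1, hF1⟩ := cauchySeq_tendsto_of_complete hc1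
  obtain ⟨F2, hF2⟩ := cauchySeq_tendsto_of_complete hc2
  have hF : Tendsto (fun n => (((u n).toC, (u n)⁻¹.toC) : C(N, N) × C(N, N))) atTop
      (𝓝 (F1, F2)) := hF1.prodMk_nhds hF2
  obtain ⟨g, hg⟩ : (F1, F2) ∈ range (fun h : HG ν => ((h.toC, h⁻¹.toC) : C(N, N) × C(N, N))) :=
    hE.isClosed_range.mem_of_tendsto hF (Eventually.of_forall fun n => mem_range_self _)
  have hg1 : g.toC = F1 := congrArg Prod.fst hg
  have hg2 : g⁻¹.toC = F2 := congrArg Prod.snd hg
  rw [← hg1] at hF1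
  rw [← hg2] at hF2
  have hlim : Tendsto u atTop (𝓝 g) := by
    rw [hE.isEmbedding.tendsto_nhds_iff]
    exact hF1.prodMk_nhds hF2
  refine ⟨g⁻¹, ?_, ?_, ?_⟩
  · have h3 := hlim.inv
    unfold Hl
    exact h3.congr fun n => hui n
  · intro n y
    rw [inv_inv]
    have h3 := dist_le_of_le_geometric_of_tendsto r (K * C) hr1 hs1 hF1 n
    have h4 : dist ((u n).toC y) (g.toC y) ≤ dist (u n).toC g.toC :=
      ContinuousMap.dist_apply_le_dist y
    refine le_trans (show _ ≤ _ from h4) (h3.trans (le_of_eq ?_))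
    ring
  · intro n y
    have h3 := dist_le_of_le_geometric_of_tendsto r (K * C') hr1 hs2 hF2 n
    have h4 : dist ((u n)⁻¹.toC y) (g⁻¹.toC y) ≤ dist (u n)⁻¹.toC g⁻¹.toC :=
      ContinuousMap.dist_apply_le_dist y
    rw [← hui n]
    refine le_trans (show _ ≤ _ from h4) (h3.trans (le_of_eq ?_))
    ring

end Pool.Agent.Work.MP_adbfe6_an.SG
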