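import Pool.Agent.Work.MP_adbfe6_an.SG.Stmts

/-!
# Item [LOf2] of the block [adbfe6 SG]: points related by a holonomy are asymptotic
-/

set_option autoImplicit false

open MeasureTheory Filter Topology Set
open scoped ENNReal

namespace Pool.Agent.Work.MP_adbfe6_an.SG

open Pool.Agent.Work.MP_adbfe6_an.Ext Pool.Agent.Work.MP_adbfe6_an.An
open Pool.Agent.SKP.SF (BiSat)

private theorem LOf2_t2 {N : Type} [MetricSpace N] [CompactSpace N] [MeasurableSpace N]
    [BorelSpace N] (ν : Measure N) : T2Space (HG ν) := by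
  refine T2Space.of_injective_continuous
    (f := fun h : HG ν => ((h.toC, h⁻¹.toC) : C(N, N) × C(N, N))) ?_ continuous_induced_dom
  intro h k hk
  have h1 : h.toC = k.toC := congrArg Prod.fst hk
  apply Subtype.ext
  apply Homeomorph.ext
  intro y
  exact congrArg (fun f : C(N, N) => f y) h1

theorem i_LOf2 (h1 : Grp) (h2 : HPt2) : LOf2 := by
  intro X N _ _ _ _ _ _ ν _ T a c hc h0 hl1 hdom hlip x x' C C' g hrt hrt' hhl y
  obtain ⟨hgrp, -⟩ := h1 N ν
  have ht2 : T2Space (HG ν) := LOf2_t2 ν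
  obtain ⟨K, r, hK0, hr0, hr1, hH⟩ := h2 X N ν T a c h0 hdom hlip
  have hC0 : 0 ≤ C := hrt.nonneg
  have key : ∀ n : ℕ, dist ((skew T a)^[n] (x, y)) ((skew T a)^[n] (x', g • y)) ≤
      (1 + K) * C * cprod T c n x := by
    intro n
    have hp : 0 < cprod T c n x := cprod_pos h0 n x
    have hCp : 0 ≤ C * cprod T c n x := mul_nonneg hC0 hp.le
    have hKp : 0 ≤ K * (C * cprod T c n x) := mul_nonneg hK0 hCp
    rw [skew_iterate, skew_iterate, Prod.dist_eq]
    refine max_le ?_ ?_
    · have := hrt n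
      show dist (T^[n] x) (T^[n] x') ≤ _
      nlinarith
    · show dist (cyc T a n x • y) (cyc T a n x' • g • y) ≤ _
      obtain ⟨gn, hgn, hd, -⟩ := hH (T^[n] x) (T^[n] x') (C * cprod T c n x)
        (C' * cprod T c n x') (hrt.iterate n) (hrt'.iterate n)
      have hg : gn = cyc T a n x' * g * (cyc T a n x)⁻¹ := hgn.unique (hhl.iterate n)
      have h2 := hd 0 (cyc T a n x' • g • y)
      have e1 : ((cyc T a 0 (T^[n] x))⁻¹ * cyc T a 0 (T^[n] x')) • cyc T a n x' • g • y =
          cyc T a n x' • g • y := by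
        simp [cyc]
      have e2 : gn⁻¹ • cyc T a n x' • g • y = cyc T a n x • y := by
        rw [hg, ← mul_smul, ← mul_smul]
        congr 1
        group
      rw [e1, e2, pow_zero, mul_one] at h2
      rw [dist_comm]
      nlinarith
  have hlim := (cprod_tendsto (T := T) hc h0 hl1 x).const_mul ((1 + K) * C)
  rw [mul_zero] at hlim
  exact squeeze_zero (fun n => dist_nonneg) key hlim

end Pool.Agent.Work.MP_adbfe6_an.SG
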