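import Pool.Agent.Work.MP_adbfe6_an.SG.Stmts

/-!
# Item [adbfe6 SG LTo2]: the points of a leaf are related by a holonomy
-/

set_option autoImplicit false

open MeasureTheory Filter Topology Set
open scoped ENNReal

namespace Pool.Agent.Work.MP_adbfe6_an.SG

open Pool.Agent.Work.MP_adbfe6_an.Ext Pool.Agent.Work.MP_adbfe6_an.An

theorem i_LTo2 (h1 : Grp) (h2 : HPt2) : LTo2 := by
  have _ := h1
  intro X N _ _ _ _ _ ν _ T a c h0 hdom hlip p p' C C' hrt hrt' hleaf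
  obtain ⟨K, r, hK0, hr0, hr1, hH⟩ := h2 X N ν T a c h0 hdom hlip
  obtain ⟨g, hg, hd, -⟩ := hH p.1 p'.1 C C' hrt hrt'
  obtain ⟨C0, r0, hr00, hr01, hdm⟩ := hdom
  obtain ⟨-, C1, hC1⟩ := hleaf
  refine ⟨g, hg, ?_⟩
  have key : ∀ n : ℕ, dist p.2 (g⁻¹ • p'.2) ≤ |C0| * C1 * r0 ^ n + K * C * r ^ n := by
    intro n
    have hp : 0 < cprod T c n p.1 := cprod_pos h0 n p.1
    have h1 := hdm n p.1 p.2 (((cyc T a n p.1)⁻¹ * cyc T a n p'.1) • p'.2)
    have h2 := hC1 n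
    have h3 := hd n p'.2
    rw [skew_iterate, skew_iterate] at h1 h2
    have e1 : cyc T a n p.1 • ((cyc T a n p.1)⁻¹ * cyc T a n p'.1) • p'.2 =
        cyc T a n p'.1 • p'.2 := by
      rw [mul_smul, smul_inv_smul]
    have h1' : cprod T c n p.1 * dist p.2 (((cyc T a n p.1)⁻¹ * cyc T a n p'.1) • p'.2) ≤
        C0 * r0 ^ n * dist (cyc T a n p.1 • p.2) (cyc T a n p'.1 • p'.2) := by
      rw [← e1]
      exact h1
    have h2' : dist (cyc T a n p.1 • p.2) (cyc T a n p'.1 • p'.2) ≤ C1 * cprod T c n p.1 := h2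
    have h4 : C0 * r0 ^ n * dist (cyc T a n p.1 • p.2) (cyc T a n p'.1 • p'.2) ≤
        |C0| * r0 ^ n * (C1 * cprod T c n p.1) := by
      refine (mul_le_mul_of_nonneg_right (mul_le_mul_of_nonneg_right (le_abs_self C0)
        (by positivity)) dist_nonneg).trans ?_
      exact mul_le_mul_of_nonneg_left h2' (by positivity)
    have h5 : cprod T c n p.1 * dist p.2 (((cyc T a n p.1)⁻¹ * cyc T a n p'.1) • p'.2) ≤
        cprod T c n p.1 * (|C0| * C1 * r0 ^ n) := by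
      refine (h1'.trans h4).trans (le_of_eq ?_)
      ring
    have h6 := le_of_mul_le_mul_left h5 hp
    have h7 := dist_triangle p.2 (((cyc T a n p.1)⁻¹ * cyc T a n p'.1) • p'.2) (g⁻¹ • p'.2)
    linarith
  have hlim : Tendsto (fun n : ℕ => |C0| * C1 * r0 ^ n + K * C * r ^ n) atTop (𝓝 0) := by
    have h1 := (tendsto_pow_atTop_nhds_zero_of_lt_one hr00.le hr01).const_mul (|C0| * C1)
    have h2 := (tendsto_pow_atTop_nhds_zero_of_lt_one hr0.le hr1).const_mul (K * C)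
    have h3 := h1.add h2
    rw [mul_zero, mul_zero, add_zero] at h3
    exact h3
  have h8 : dist p.2 (g⁻¹ • p'.2) ≤ 0 := ge_of_tendsto' hlim key
  have h9 : p.2 = g⁻¹ • p'.2 := dist_le_zero.1 h8
  rw [h9, smul_inv_smul]

end Pool.Agent.Work.MP_adbfe6_an.SG
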