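import Pool.Agent.Work.MP_adbfe6_an.SG.Stmts

/-! Item [adbfe6 SG Opn] (helper51): the measure of the base is positive on open sets. -/

set_option autoImplicit false

open MeasureTheory Filter Topology Set
open scoped ENNReal

namespace Pool.Agent.Work.MP_adbfe6_an.SG

open Pool.Agent.Work.MP_adbfe6_an.Ext Pool.Agent.Work.MP_adbfe6_an.An
open Pool.Agent.SKP.SF (BiSat)

theorem i_Opn : Opn := by
  intro X P Q _ _ _ _ _ _ _ _ _ _ _ m p _ _ q _ _ b hB
  refine ⟨fun U hU hne h0 => ?_⟩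
  obtain ⟨x, hx⟩ := hne
  obtain ⟨i, z, rfl⟩ := hB.cover x
  have h1 : m (U ∩ range (b i)) = 0 := measure_mono_null inter_subset_left h0
  have h2 : (p.prod q) (b i ⁻¹' U) = 0 := (hB.null i U hU.measurableSet).2 h1
  exact (hU.preimage (hB.emb i).continuous).measure_ne_zero (p.prod q) ⟨z, hx⟩ h2

end Pool.Agent.Work.MP_adbfe6_an.SG
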