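import Pool.Agent.Work.MP_adbfe6_an.SG.Stmts

/-! Item Orl: relations between slices move `Off`. -/

set_option autoImplicit false

open MeasureTheory Filter Topology Set
open scoped ENNReal

namespace Pool.Agent.Work.MP_adbfe6_an.SG

open Pool.Agent.Work.MP_adbfe6_an.Ext Pool.Agent.Work.MP_adbfe6_an.An

private theorem Orl_aux {X G N : Type} [MeasurableSpace X] [Group G] [TopologicalSpace G]
    [MulAction G N] [MetricSpace N] [MeasurableSpace N] [BorelSpace N] [ContinuousSMul G N]
    (ν : Measure N) (hm : ∀ g : G, MeasurePreserving (fun y : N => g • y) ν ν) (S : Set (X × N))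
    (hS : MeasurableSet S) (x x' : X) (g : G) (h : Rel ν S x x' g) (y : N)
    (hy : y ∈ Off ν {z | (x, z) ∈ S}) : g • y ∈ Off ν {z | (x', z) ∈ S} := by
  obtain ⟨V, hV, hyV, hν⟩ := hy
  have hc : Continuous (fun z : N => g⁻¹ • z) := (hm g⁻¹).measurable |> fun _ =>
    continuous_const.smul continuous_id
  refine ⟨(fun z : N => g⁻¹ • z) ⁻¹' V, hV.preimage hc, ?_, ?_⟩
  · show g⁻¹ • g • y ∈ V
    rw [inv_smul_smul]
    exact hyV
  · have hmeas : MeasurableSet ({z | (x', z) ∈ S} ∩ (fun z : N => g⁻¹ • z) ⁻¹' V) :=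
      (measurable_prodMk_left hS).inter (hV.preimage hc).measurableSet
    rw [← (hm g).measure_preimage hmeas.nullMeasurableSet]
    have h1 : (fun y : N => g • y) ⁻¹' ({z | (x', z) ∈ S} ∩ (fun z : N => g⁻¹ • z) ⁻¹' V)
        = {y : N | (x', g • y) ∈ S} ∩ V := by
      ext z
      constructor
      · rintro ⟨h2, h3⟩
        refine ⟨h2, ?_⟩
        have h4 : g⁻¹ • g • z ∈ V := h3
        rw [inv_smul_smul] at h4
        exact h4
      · rintro ⟨h2, h3⟩
        refine ⟨h2, ?_⟩
        show g⁻¹ • g • z ∈ V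
        rw [inv_smul_smul]
        exact h3
    rw [h1, measure_congr (h.inter (ae_eq_refl V))]
    exact hν

theorem i_Orl : Orl := by
  intro X G N _ _ _ _ _ _ _ _ ν hm S hS x x' g h y
  constructor
  · intro h1
    have h2 := Orl_aux ν hm S hS x' x g⁻¹ (rel_inv hm h) (g • y) h1
    rw [inv_smul_smul] at h2
    exact h2
  · exact Orl_aux ν hm S hS x x' g h y

end Pool.Agent.Work.MP_adbfe6_an.SG
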