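import Pool.Agent.Work.MP_adbfe6_an.SG.Asm
import Pool.Agent.Work.MP_adbfe6_an.SG.I_Aeb
import Pool.Agent.Work.MP_adbfe6_an.SG.I_Cle
import Pool.Agent.Work.MP_adbfe6_an.SG.I_Coc
import Pool.Agent.Work.MP_adbfe6_an.SG.I_Grp
import Pool.Agent.Work.MP_adbfe6_an.SG.I_HCt2
import Pool.Agent.Work.MP_adbfe6_an.SG.I_HPt2
import Pool.Agent.Work.MP_adbfe6_an.SG.I_LOf2
import Pool.Agent.Work.MP_adbfe6_an.SG.I_LTo2
import Pool.Agent.Work.MP_adbfe6_an.SG.I_Ofs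
import Pool.Agent.Work.MP_adbfe6_an.SG.I_Opn
import Pool.Agent.Work.MP_adbfe6_an.SG.I_Orl
import Pool.Agent.Work.MP_adbfe6_an.SF.I_Avg
import Pool.Agent.Work.MP_adbfe6_an.SF.I_Lsp
import Pool.Agent.Work.MP_adbfe6_an.SF.I_Sat
import Pool.Agent.Work.MP_adbfe6_an.SF.I_Blk
import Pool.Agent.Work.MP_adbfe6_an.SF.I_Lnd
import Pool.Agent.Work.MP_adbfe6_an.SF.I_Dic
import Pool.Agent.Work.MP_adbfe6_an.SF.I_Cnt
import Pool.Agent.Work.MP_adbfe6_an.SF.I_Sml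
import Pool.Agent.Work.MP_adbfe6_an.SF.I_Hil
import Pool.Agent.Work.MP_adbfe6_an.SF.I_Vcl
import Pool.Agent.Work.MP_adbfe6_an.SF.I_Mzr
import Pool.Agent.Work.MP_adbfe6_an.SF.I_Ort
import Pool.Agent.Work.MP_adbfe6_an.SF.I_Cou

/-!
# Surface fibres over Anosov systems: the main theorem
-/

set_option autoImplicit false

open MeasureTheory Filter Topology Set
open scoped ENNReal

namespace Pool.Agent.Work.MP_adbfe6_an.SG

open Pool.Agent.Work.MP_adbfe6_an.Ext Pool.Agent.Work.MP_adbfe6_an.An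
open Pool.Agent.SKP.SF

theorem final {X P Q N : Type} [MetricSpace X] [CompactSpace X] [MeasurableSpace X]
    [BorelSpace X] [TopologicalSpace P] [SecondCountableTopology P] [MeasurableSpace P]
    [BorelSpace P] [TopologicalSpace Q] [SecondCountableTopology Q] [MeasurableSpace Q]
    [BorelSpace Q] [MetricSpace N] [CompactSpace N] [MeasurableSpace N] [BorelSpace N]
    {m : Measure X} [IsProbabilityMeasure m] {p : Measure P} [SigmaFinite p]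
    [p.IsOpenPosMeasure] {q : Measure Q} [SigmaFinite q] [q.IsOpenPosMeasure] {ν : Measure N}
    [IsProbabilityMeasure ν] [ν.IsOpenPosMeasure] {b : ℕ → P × Q → X} {T : X ≃ₜ X}
    {cs cu : X → ℝ} {g : X → N ≃ₜ N} {Ω : Set (X × N)} {Wu Ws : X × N → Set N}
    (hB : HypBase m p q b T cs cu) (hg : ∀ x, MeasurePreserving (g x) ν ν)
    (hPH : PHyp N T g cs cu) (hE : EssAcc T g cs cu (m.prod ν))
    (hW : PesinFibres T g m ν Ω Wu Ws) :
    (∀ k > 0, ∀ S ⊆ Ω, MeasurableSet S → (skew T g)^[k] ⁻¹' S = S →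
      (m.prod ν) S = 0 ∨ (m.prod ν) (Ω \ S) = 0) ∧
    ((m.prod ν) Ωᶜ = 0 → Ergodic (skew T g : X × N → X × N) (m.prod ν) ∧
      Mixing (skew T g : X × N → X × N) (m.prod ν)) := by
  have hpt : HPt2 := i_HPt2 i_Grp i_Cle
  have e : Env T g m ν := env_of
    ⟨i_Grp, i_Coc, i_HCt2 i_Grp hpt, i_LOf2 i_Grp hpt, i_LTo2 i_Grp hpt, i_Aeb, i_Opn,
      i_Ofs i_Orl i_Aeb⟩ hB hg hPH hE
  exact main_all ⟨i_Sat i_Avg i_Lsp, i_Blk i_Lnd, i_Cnt i_Dic, i_Sml i_Dic,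
    i_Cou i_Hil i_Vcl (i_Ort i_Mzr)⟩ e hW

end Pool.Agent.Work.MP_adbfe6_an.SG
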