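import Pool.Agent.Work.MP_adbfe6_an.SG.Stmts

/-!
# Block [adbfe6 SG], item Ofs: the open invariant set of the points outside of the supports
-/

set_option autoImplicit false

open MeasureTheory Filter Topology Set
open scoped ENNReal

namespace Pool.Agent.Work.MP_adbfe6_an.SG

open Pool.Agent.Work.MP_adbfe6_an.Ext Pool.Agent.Work.MP_adbfe6_an.An

namespace AuxOfs

theorem isOpen_off {N : Type} [TopologicalSpace N] [MeasurableSpace N] (ν : Measure N)
    (Y : Set N) : IsOpen (Off ν Y) := by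
  rw [isOpen_iff_forall_mem_open]
  rintro z ⟨V, hV, hzV, hν⟩
  exact ⟨V, fun z' hz' => ⟨V, hV, hz', hν⟩, hV, hzV⟩

end AuxOfs

open AuxOfs

theorem i_Ofs (h1 : Orl) (h2 : Aeb) : Ofs := by
  intro X G N P Q _ _ _ _ _ _ _ _ _ _ _ _ _ _ _ _ _ _ _ _ m _ ν _ hm p _ q _ b hB S hS x κ
    hκ hrel Lk hLk1 hLk
  -- the consistency
  have hcons : ∀ (i j : ℕ) (z z' : P × Q) (h : G), Lk (b i z) (b j z') h → ∀ y : N,
      ((κ j z')⁻¹ • (h • y) ∈ Off ν {w : N | (x j, w) ∈ S} ↔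
        (κ i z)⁻¹ • y ∈ Off ν {w : N | (x i, w) ∈ S}) := by
    intro i j z z' h hl y
    have h3 := h1 X G N ν hm S hS (x i) (x j) _ (hLk i j z z' h hl) ((κ i z)⁻¹ • y)
    rwa [mul_smul, mul_smul, smul_inv_smul] at h3
  obtain ⟨O, hO⟩ : ∃ O : Set (X × N), O = {w : X × N | ∃ (i : ℕ) (z : P × Q), b i z = w.1 ∧
      (κ i z)⁻¹ • w.2 ∈ Off ν {u : N | (x i, u) ∈ S}} := ⟨_, rfl⟩
  have hmem : ∀ (i : ℕ) (z : P × Q) (y : N),
      ((b i z, y) ∈ O ↔ (κ i z)⁻¹ • y ∈ Off ν {w : N | (x i, w) ∈ S}) := by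
    intro i z y
    rw [hO]
    constructor
    · rintro ⟨j, z', hz', hy⟩
      have hz'' : b j z' = b i z := hz'
      have h3 : Lk (b j z') (b i z) 1 := by
        rw [hz'']
        exact hLk1 _
      have h4 := hcons j i z' z 1 h3 y
      rw [one_smul] at h4
      exact h4.2 hy
    · intro hy
      exact ⟨i, z, rfl, hy⟩
  refine ⟨O, ?_, ?_, ?_⟩
  · have h3 : O = ⋃ i, (Prod.map (b i) (id : N → N)) ''
        {w : (P × Q) × N | (κ i w.1)⁻¹ • w.2 ∈ Off ν {u : N | (x i, u) ∈ S}} := by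
      ext w
      rw [mem_iUnion, hO]
      constructor
      · rintro ⟨i, z, hz, hy⟩
        exact ⟨i, (z, w.2), hy, Prod.ext hz rfl⟩
      · rintro ⟨i, w', hw', rfl⟩
        exact ⟨i, w'.1, rfl, hw'⟩
    rw [h3]
    refine isOpen_iUnion fun i => ?_
    have h4 : IsOpenEmbedding (Prod.map (b i) (id : N → N)) :=
      (hB.emb i).prodMap IsOpenEmbedding.id
    refine h4.isOpenMap _ ?_
    have h5 : Continuous (fun w : (P × Q) × N => (κ i w.1)⁻¹ • w.2) :=
      (((hκ i).comp continuous_fst).inv).smul continuous_snd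
    exact (isOpen_off ν _).preimage h5
  · intro x₁ x₂ h hl y
    obtain ⟨i, z, rfl⟩ := hB.cover x₁
    obtain ⟨j, z', rfl⟩ := hB.cover x₂
    rw [hmem, hmem]
    exact hcons i j z z' h hl y
  · filter_upwards [h2 X P Q m p q b hB (fun i z x' => Rel ν S (x i) x' (κ i z)) hrel] with x' hx'
    obtain ⟨i, z, rfl, hr⟩ := hx'
    ext y
    have h3 := h1 X G N ν hm S hS (x i) (b i z) (κ i z) hr ((κ i z)⁻¹ • y)
    rw [smul_inv_smul] at h3
    exact (hmem i z y).trans h3.symm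

end Pool.Agent.Work.MP_adbfe6_an.SG
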