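import Pool.Agent.Work.MP_adbfe6_an.SG.Defs
import Pool.Agent.Work.MP_adbfe6_an.Bd.B05
import Pool.Agent.Work.MP_adbfe6_an.SF.StmtsB

/-!
# Surface fibres over Anosov systems: statements

Every docstring is a complete proof. Prove `theorem i_X : X` (namespace
`Pool.Agent.Work.MP_adbfe6_an.SG`) in `Work/MP_adbfe6_an/SG/I_X.lean`, which imports this file;
statements which are used may be taken as hypotheses.
-/

set_option autoImplicit false

open MeasureTheory Filter Topology Set
open scoped ENNReal

namespace Pool.Agent.Work.MP_adbfe6_an.SG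

open Pool.Agent.Work.MP_adbfe6_an.Ext Pool.Agent.Work.MP_adbfe6_an.An
open Pool.Agent.SKP.SF (BiSat)

/-! ### The group of measure preserving homeomorphisms -/

/-- the measure preserving homeomorphisms -/
def mpSub {N : Type} [TopologicalSpace N] [MeasurableSpace N] [BorelSpace N] (ν : Measure N) :
    Subgroup (N ≃ₜ N) where
  carrier := {h | MeasurePreserving h ν ν}
  mul_mem' := fun {a b} (ha : MeasurePreserving a ν ν) (hb : MeasurePreserving b ν ν) =>
    (ha.comp hb : MeasurePreserving (a ∘ b) ν ν)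
  one_mem' := MeasurePreserving.id ν
  inv_mem' := fun {h} hh => MeasurePreserving.symm h.toMeasurableEquiv hh

/-- the group of the measure preserving homeomorphisms of `N` -/
def HG {N : Type} [TopologicalSpace N] [MeasurableSpace N] [BorelSpace N] (ν : Measure N) : Type :=
  ↥(mpSub ν)

section

variable {N : Type} [MetricSpace N] [CompactSpace N] [MeasurableSpace N] [BorelSpace N]
  {ν : Measure N}

instance : Group (HG ν) := inferInstanceAs (Group ↥(mpSub ν))

instance : MulAction (HG ν) N := inferInstanceAs (MulAction ↥(mpSub ν) N)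

/-- `h` as a continuous map -/
def HG.toC (h : HG ν) : C(N, N) := ⟨fun y => (h.1 : N ≃ₜ N) y, (h.1 : N ≃ₜ N).continuous⟩

/-- the topology of uniform convergence of `h` and `h⁻¹` -/
instance : TopologicalSpace (HG ν) :=
  TopologicalSpace.induced (fun h : HG ν => (h.toC, h⁻¹.toC)) inferInstance

end

/-- **Grp** (EASY-MEDIUM). `HG ν` is a topological group which acts continuously on `N`.
Proof: `h ↦ (h, h⁻¹) ∈ C(N, N) × C(N, N)` is inducing by definition; `(h k) = h ∘ k`,
`(h k)⁻¹ = k⁻¹ ∘ h⁻¹` and composition `C(N, N) × C(N, N) → C(N, N)` is continuous (`N` is compact;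
`ContinuousMap.continuous_comp'` or `Continuous.compCM`), inversion exchanges the two components, and
`(h, y) ↦ h y` is continuous by `ContinuousEval` (`continuous_eval`). -/
def Grp : Prop :=
  ∀ (N : Type) [MetricSpace N] [CompactSpace N] [MeasurableSpace N] [BorelSpace N]
    (ν : Measure N), IsTopologicalGroup (HG ν) ∧ ContinuousSMul (HG ν) N

/-- **Cle** (MEDIUM). `h ↦ (h, h⁻¹)` is a closed embedding of `HG ν` into `C(N, N) × C(N, N)`.
Proof: injective and inducing by definition. Closed range: it is the set of the pairs `(u, v)` with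
`u ∘ v = id`, `v ∘ u = id` (closed conditions) and `ν.map u = ν`: limits of measure preserving
continuous maps are measure preserving (`Pool.Agent.SKP.measurePreserving_of_tendsto` in
`SK/Meas.lean`; `C(N, N)` is metrizable, so use sequences:
`isSeqClosed_iff_isClosed`, `IsSeqClosed`). A pair with `u ∘ v = id = v ∘ u` is a homeomorphism. -/
def Cle : Prop :=
  ∀ (N : Type) [MetricSpace N] [CompactSpace N] [MeasurableSpace N] [BorelSpace N]
    (ν : Measure N) [IsFiniteMeasure ν],
    IsClosedEmbedding (fun h : HG ν => ((h.toC, h⁻¹.toC) : C(N, N) × C(N, N)))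

/-- **Coc** (EASY). Lipschitz skew products have continuous cocycles (model:
`Ext.cocycle_continuous`).
Proof: by the definition of the topology `a` is continuous iff `x ↦ (a x).toC` and `x ↦ (a x)⁻¹.toC`
are. The first is Lipschitz as in `cocycle_continuous` (`lip_fibre h`); the second:
`(a x)⁻¹ = ainv T.symm a (T x)`, so it is the composition of a Lipschitz map with the continuous map
`T`. -/
def Coc : Prop :=
  ∀ (X N : Type) [MetricSpace X] [MetricSpace N] [CompactSpace N] [MeasurableSpace N]
    [BorelSpace N] (ν : Measure N) (T : X ≃ₜ X) (a : X → HG ν) (K K' : NNReal),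
    LipschitzWith K (skew (N := N) T a) → LipschitzWith K' (skew (N := N) T.symm (ainv T.symm a)) →
    Continuous a

/-- **HPt2** (EASY-MEDIUM; model: `An.pr_HPt` in `Bd/B05.lean`). Holonomies exist in `HG ν`.
Proof: `AuxHPt.step` for `(x, x')` gives that `(cyc x)⁻¹ * cyc x'` is a Cauchy sequence for the
uniform distance of the maps, and for `(x', x)` that its inverse `(cyc x')⁻¹ * cyc x` is one. So the
sequence converges in `HG ν` (`Cle`: closed embedding into the complete space
`C(N, N) × C(N, N)`). The two estimates are `dist_le_of_le_geometric_of_tendsto` as in `pr_HPt`; take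
`K / (1 - r)`. -/
def HPt2 : Prop :=
  ∀ (X N : Type) [MetricSpace X] [MetricSpace N] [CompactSpace N] [MeasurableSpace N]
    [BorelSpace N] (ν : Measure N) [IsFiniteMeasure ν] (T : X → X) (a : X → HG ν) (c : X → ℝ),
    (∀ x, 0 < c x) → Dominated N T a c → InvLip N a →
    ∃ K r : ℝ, 0 ≤ K ∧ 0 < r ∧ r < 1 ∧
      ∀ (x x' : X) (C C' : ℝ), Rt T c x x' C → Rt T c x' x C' → ∃ g : HG ν, Hl T a x x' g ∧
        (∀ (n : ℕ) (y : N),
          dist (((cyc T a n x)⁻¹ * cyc T a n x') • y) (g⁻¹ • y) ≤ K * C * r ^ n) ∧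
        ∀ (n : ℕ) (y : N), dist (((cyc T a n x')⁻¹ * cyc T a n x) • y) (g • y) ≤ K * C' * r ^ n

/-- **HCt2** (EASY-MEDIUM, uses `HPt2`, `Grp`; model: `An.pr_HCt` in `Bd/B05.lean`). Holonomies are
continuous.
Proof: the holonomy `h w` and its inverse are locally uniform limits, as maps `W → C(N, N)`, of
continuous maps (both estimates of `HPt2`); so `w ↦ (h w).toC` and `w ↦ (h w)⁻¹.toC` are continuous,
which is the continuity of `h` by the definition of the topology. -/
def HCt2 : Prop :=
  ∀ (X N W : Type) [MetricSpace X] [MetricSpace N] [CompactSpace N] [MeasurableSpace N]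
    [BorelSpace N] [TopologicalSpace W] (ν : Measure N) [IsFiniteMeasure ν] (T : X → X)
    (a : X → HG ν) (c : X → ℝ), Continuous T → Continuous a → (∀ x, 0 < c x) →
    Dominated N T a c → InvLip N a →
    ∀ (x x' : W → X) (ρ ρ' : W → ℝ), Continuous x → Continuous x' → Continuous ρ →
    Continuous ρ' → (∀ w, Rt T c (x w) (x' w) (ρ w)) → (∀ w, Rt T c (x' w) (x w) (ρ' w)) →
    ∃ h : W → HG ν, Continuous h ∧ ∀ w, Hl T a (x w) (x' w) (h w)

/-- **LOf2** (EASY-MEDIUM, uses `HPt2`, `Grp`; model: `An.pr_LOf` in `Bd/B05.lean`). Points related by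
a holonomy are asymptotic. Proof: word for word `pr_LOf`, with both `Rt` hypotheses carried along
(`Rt.iterate`; limits in `HG ν` are unique: `HG ν` is Hausdorff, because its topology is induced by
the injective map `h ↦ (h, h⁻¹)`). -/
def LOf2 : Prop :=
  ∀ (X N : Type) [MetricSpace X] [CompactSpace X] [MetricSpace N] [CompactSpace N]
    [MeasurableSpace N] [BorelSpace N] (ν : Measure N) [IsFiniteMeasure ν] (T : X → X)
    (a : X → HG ν) (c : X → ℝ), Continuous c → (∀ x, 0 < c x) → (∀ x, c x < 1) →
    Dominated N T a c → InvLip N a → ∀ (x x' : X) (C C' : ℝ) (g : HG ν), Rt T c x x' C →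
    Rt T c x' x C' → Hl T a x x' g → ∀ y : N, Asym (skew T a) (x, y) (x', g • y)

/-- **LTo2** (EASY, uses `HPt2`; model: `An.pr_LTo` in `Bd/B05.lean`). Points of a leaf are related by a
holonomy. Proof: word for word `pr_LTo`. -/
def LTo2 : Prop :=
  ∀ (X N : Type) [MetricSpace X] [MetricSpace N] [CompactSpace N]
    [MeasurableSpace N] [BorelSpace N] (ν : Measure N) [IsFiniteMeasure ν] (T : X → X)
    (a : X → HG ν) (c : X → ℝ), (∀ x, 0 < c x) →
    Dominated N T a c → InvLip N a → ∀ (p p' : X × N) (C C' : ℝ), Rt T c p.1 p'.1 C →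
    Rt T c p'.1 p.1 C' → Leaf T a c p p' → ∃ g : HG ν, Hl T a p.1 p'.1 g ∧ p'.2 = g • p.2

/-! ### The open set of the points outside of the support of the slices -/

/-- the complement of the support of `ν` restricted to `Y` -/
def Off {N : Type} [TopologicalSpace N] [MeasurableSpace N] (ν : Measure N) (Y : Set N) : Set N :=
  {z | ∃ V, IsOpen V ∧ z ∈ V ∧ ν (Y ∩ V) = 0}

/-- **Orl** (EASY). Relations between slices move `Off`.
Proof: `Rel ν S x x' g`: `{y | (x', g • y) ∈ S} = {y | (x, y) ∈ S}` a.e. If `V ∋ y` is open with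
`ν (S_x ∩ V) = 0`, then `g • V` is open (the action is by homeomorphisms) and
`ν (S_x' ∩ g • V) = ν (g⁻¹ (S_x') ∩ V) = ν (S_x ∩ V) = 0`. Conversely apply this to `rel_inv`. -/
def Orl : Prop :=
  ∀ (X G N : Type) [MeasurableSpace X] [Group G] [TopologicalSpace G] [MulAction G N]
    [MetricSpace N] [MeasurableSpace N] [BorelSpace N] [ContinuousSMul G N] (ν : Measure N),
    (∀ g : G, MeasurePreserving (fun y : N => g • y) ν ν) → ∀ (S : Set (X × N)),
    MeasurableSet S → ∀ (x x' : X) (g : G), Rel ν S x x' g → ∀ y : N,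
      (g • y ∈ Off ν {z | (x', z) ∈ S} ↔ y ∈ Off ν {z | (x, z) ∈ S})

/-- **Aeb** (EASY-MEDIUM). From the boxes to the base.
Proof: for every `i` take a measurable null set `Z i ⊆ P × Q` (for `p.prod q`) outside of which
`R i z (b i z)` holds (`toMeasurable`). `b i '' Z i` is measurable (`IsOpenEmbedding.measurableEmbedding`)
and `b i ⁻¹' (b i '' Z i) = Z i`, so `m (b i '' Z i) = 0` by `Boxes.null`. A point `x` outside of the
union of these sets is `b i z` for some `i`, `z` (`Boxes.cover`), and `z ∉ Z i`. -/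
def Aeb : Prop :=
  ∀ (X P Q : Type) [TopologicalSpace X] [MeasurableSpace X] [BorelSpace X]
    [TopologicalSpace P] [SecondCountableTopology P] [MeasurableSpace P] [BorelSpace P]
    [TopologicalSpace Q] [SecondCountableTopology Q] [MeasurableSpace Q] [BorelSpace Q]
    (m : Measure X) (p : Measure P) (q : Measure Q) (b : ℕ → P × Q → X), Boxes m p q b →
    ∀ R : ℕ → P × Q → X → Prop, (∀ i, ∀ᵐ z ∂(p.prod q), R i z (b i z)) →
    ∀ᵐ x ∂m, ∃ i z, b i z = x ∧ R i z x

/-- **Opn** (EASY). `m` is positive on nonempty open sets.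
Proof: let `U` be open and `x = b i z ∈ U` (`Boxes.cover`). `b i ⁻¹' U` is open and nonempty, so it has
positive measure for `p.prod q`, so `m (U ∩ range (b i)) ≠ 0` by `Boxes.null`. -/
def Opn : Prop :=
  ∀ (X P Q : Type) [TopologicalSpace X] [MeasurableSpace X] [BorelSpace X]
    [TopologicalSpace P] [SecondCountableTopology P] [MeasurableSpace P] [BorelSpace P]
    [TopologicalSpace Q] [SecondCountableTopology Q] [MeasurableSpace Q] [BorelSpace Q]
    (m : Measure X) (p : Measure P) [SigmaFinite p] [p.IsOpenPosMeasure] (q : Measure Q)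
    [SigmaFinite q] [q.IsOpenPosMeasure] (b : ℕ → P × Q → X), Boxes m p q b →
    m.IsOpenPosMeasure

/-- **Ofs** (MEDIUM, uses `Orl`, `Aeb`; model: `An.pr_Spr` in `Bd/B05.lean`). The set of the points
outside of the supports of the slices of `S` is, up to a null set of the base, an open set invariant
under the holonomies.
Proof: `O := {w | ∃ i z, b i z = w.1 ∧ (κ i z)⁻¹ • w.2 ∈ Off ν S_(x i)}`. If `b i z = b j z'`, the link
`Lk (b i z) (b j z') 1` gives `Rel ν S (x i) (x j) ((κ j z')⁻¹ * κ i z)`, so by `Orl` the condition does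
not depend on `(i, z)`: `(b i z, y) ∈ O ↔ (κ i z)⁻¹ • y ∈ Off ν S_(x i)`. The same computation for
a link `Lk (b i z) (b j z') g` gives the invariance (`(κ j z')⁻¹ • g • y = ((κ j z')⁻¹ * g * κ i z) •
(κ i z)⁻¹ • y`). `O` is the union of the images under the open embeddings `b i × id` of the sets
`{(z, y) | (κ i z)⁻¹ • y ∈ Off ν S_(x i)}`, which are open (`Off` is open, `κ i` is continuous). By
`Aeb` a.e. `x'` is `b i z` with `Rel ν S (x i) (b i z) (κ i z)`, and then by `Orl`
`Off ν S_x' = {y | (κ i z)⁻¹ • y ∈ Off ν S_(x i)} = {y | (x', y) ∈ O}`. -/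
def Ofs : Prop :=
  ∀ (X G N P Q : Type) [TopologicalSpace X] [MeasurableSpace X]
    [BorelSpace X] [Group G] [TopologicalSpace G] [IsTopologicalGroup G] [MulAction G N]
    [MetricSpace N] [CompactSpace N] [MeasurableSpace N] [BorelSpace N] [ContinuousSMul G N]
    [TopologicalSpace P] [SecondCountableTopology P] [MeasurableSpace P] [BorelSpace P]
    [TopologicalSpace Q] [SecondCountableTopology Q] [MeasurableSpace Q] [BorelSpace Q]
    (m : Measure X) [IsProbabilityMeasure m] (ν : Measure N) [IsProbabilityMeasure ν],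
    (∀ g : G, MeasurePreserving (fun y : N => g • y) ν ν) →
    ∀ (p : Measure P) [SigmaFinite p] (q : Measure Q) [SigmaFinite q] (b : ℕ → P × Q → X),
    Boxes m p q b → ∀ (S : Set (X × N)), MeasurableSet S → ∀ (x : ℕ → X) (κ : ℕ → P × Q → G),
    (∀ i, Continuous (κ i)) → (∀ i, ∀ᵐ z ∂(p.prod q), Rel ν S (x i) (b i z) (κ i z)) →
    ∀ (Lk : X → X → G → Prop), (∀ x, Lk x x 1) →
    (∀ i j z z' g, Lk (b i z) (b j z') g → Rel ν S (x i) (x j) ((κ j z')⁻¹ * g * κ i z)) →
    ∃ O : Set (X × N), IsOpen O ∧
      (∀ x x' g, Lk x x' g → ∀ y : N, ((x', g • y) ∈ O ↔ (x, y) ∈ O)) ∧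
      ∀ᵐ x ∂m, {y | (x, y) ∈ O} = Off ν {y | (x, y) ∈ S}

end Pool.Agent.Work.MP_adbfe6_an.SG
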